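import Pool.Agent.Helper34.LT.Ad

/-!
PROJECT LT, part A5: the ring of integers as a lattice.
-/

set_option autoImplicit false

namespace Pool.Agent.Helper59.LT

open Finset
open Pool.Agent.Helper34.LT

theorem zt_pow (q : ℕ) (hq : q ≠ 0) : zt q ^ q = 1 := by
  have h := Complex.isPrimitiveRoot_exp q hq
  exact h.pow_eq_one

theorem zt_prim (q : ℕ) (hq : q ≠ 0) : IsPrimitiveRoot (zt q) q :=
  Complex.isPrimitiveRoot_exp q hq

theorem zt_ne (q : ℕ) : zt q ≠ 0 := Complex.exp_ne_zero _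

theorem zt_norm (q : ℕ) (hq : q ≠ 0) : ‖zt q‖ = 1 :=
  Complex.norm_eq_one_of_pow_eq_one (zt_pow q hq) hq

theorem zt_conj (q : ℕ) (hq : q ≠ 0) : (starRingEnd ℂ) (zt q) = (zt q)⁻¹ := by
  rw [Complex.inv_def, Complex.normSq_eq_norm_sq, zt_norm q hq]
  simp

theorem geom_zero (q : ℕ) (x : ℂ) (h1 : x ^ q = 1) (h2 : x ≠ 1) : ∑ i ∈ range q, x ^ i = 0 := by
  rw [geom_sum_eq h2, h1, sub_self, zero_div]

theorem zt_pow_ne_one (q u : ℕ) (hq : q ≠ 0) (h1 : 1 ≤ u) (h2 : u < q) : zt q ^ u ≠ 1 :=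
  (zt_prim q hq).pow_ne_one_of_pos_of_lt (by omega) h2

theorem zt_sum_zero (q u : ℕ) (hq : q ≠ 0) (h1 : 1 ≤ u) (h2 : u < q) :
    ∑ i ∈ range q, (zt q ^ u) ^ i = 0 := by
  refine geom_zero q _ ?_ (zt_pow_ne_one q u hq h1 h2)
  rw [← pow_mul, mul_comm, pow_mul, zt_pow q hq, one_pow]

/-- orthogonality -/
theorem zt_orth (q u v : ℕ) (hq : q ≠ 0) (hu : u < q) (hv : v < q) :
    ∑ i ∈ range q, (zt q ^ v) ^ i * ((zt q ^ u)⁻¹) ^ i = if u = v then (q : ℂ) else 0 := by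
  simp_rw [← mul_pow]
  split_ifs with h
  · rw [h, mul_inv_cancel₀ (pow_ne_zero _ (zt_ne q))]
    simp
  · refine geom_zero q _ ?_ ?_
    · rw [mul_pow, inv_pow, ← pow_mul, ← pow_mul, mul_comm v, mul_comm u, pow_mul, pow_mul,
        zt_pow q hq, one_pow, one_pow, inv_one, mul_one]
    · intro h3
      rw [mul_inv_eq_one₀ (pow_ne_zero _ (zt_ne q))] at h3
      exact h ((zt_prim q hq).pow_inj hv hu h3).symm

theorem zt_orth2 (q u v : ℕ) (hq : q ≠ 0) (hu : 1 ≤ u) (hu' : u < q) (hv : 1 ≤ v)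
    (hv' : v < q) (huv : u + v ≠ q) :
    ∑ i ∈ range q, (zt q ^ v) ^ i * (zt q ^ u) ^ i = 0 := by
  simp_rw [← mul_pow]
  refine geom_zero q _ ?_ ?_
  · rw [mul_pow, ← pow_mul, ← pow_mul, mul_comm v, mul_comm u, pow_mul, pow_mul,
      zt_pow q hq, one_pow, one_pow, mul_one]
  · intro h3
    rw [← pow_add] at h3
    have h4 := (zt_prim q hq).dvd_of_pow_eq_one _ h3
    obtain ⟨k, hk⟩ := h4
    have : k = 1 := by
      rcases Nat.lt_or_ge k 2 with h5 | h5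
      · interval_cases k
        · omega
        · rfl
      · exfalso
        have : q * 2 ≤ q * k := Nat.mul_le_mul_left _ h5
        omega
    subst this
    omega

theorem aeval_mod (q : ℕ) (hq : q ≠ 0) (P : Polynomial ℤ) :
    ∃ n : ℕ → ℤ, ∀ u : ℕ, Polynomial.aeval (zt q ^ u) P =
      ∑ i ∈ range q, (n i : ℂ) * (zt q ^ u) ^ i := by
  have hm : (Polynomial.X ^ q - 1 : Polynomial ℤ).Monic := Polynomial.monic_X_pow_sub_C 1 hq
  refine ⟨fun i => (P %ₘ (Polynomial.X ^ q - 1)).coeff i, fun u => ?_⟩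
  have h1 := congrArg (Polynomial.aeval (zt q ^ u)) (Polynomial.modByMonic_add_div P
    (Polynomial.X ^ q - 1))
  have h2 : (zt q ^ u) ^ q = 1 := by
    rw [← pow_mul, mul_comm, pow_mul, zt_pow q hq, one_pow]
  rw [map_add, map_mul, map_sub, map_pow, Polynomial.aeval_X, h2, map_one, sub_self, zero_mul,
    add_zero] at h1
  rw [← h1]
  have h3 : (P %ₘ (Polynomial.X ^ q - 1)).natDegree < q := by
    have h4 := Polynomial.natDegree_modByMonic_lt P hm (by
      intro h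
      have h5 := congrArg Polynomial.natDegree h
      rw [Polynomial.natDegree_one] at h5
      have h6 := Polynomial.natDegree_X_pow_sub_C (n := q) (r := (1 : ℤ))
      rw [Polynomial.C_1] at h6
      omega)
    have h6 := Polynomial.natDegree_X_pow_sub_C (n := q) (r := (1 : ℤ))
    rw [Polynomial.C_1] at h6
    omega
  rw [Polynomial.aeval_eq_sum_range' h3]
  refine Finset.sum_congr rfl fun i _ => ?_
  rw [zsmul_eq_mul]

/-- discreteness -/
theorem disc (q : ℕ) (hq : q ≠ 0) (P : Polynomial ℤ)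
    (h : ∀ u, 1 ≤ u → u < q → ‖Polynomial.aeval (zt q ^ u) P‖ < 1 / 2) (u : ℕ) (h1 : 1 ≤ u)
    (h2 : u < q) : Polynomial.aeval (zt q ^ u) P = 0 := by
  obtain ⟨n, hn⟩ := aeval_mod q hq P
  have hq0 : 0 < q := Nat.pos_of_ne_zero hq
  have hqr : (0 : ℝ) < (q : ℝ) := by exact_mod_cast hq0
  -- the inversion formula
  have inv : ∀ i < q, (q : ℂ) * (n i : ℂ) =
      ∑ v ∈ range q, Polynomial.aeval (zt q ^ v) P * ((zt q ^ i)⁻¹) ^ v := by
    intro i hi
    have e1 : ∀ v ∈ range q, Polynomial.aeval (zt q ^ v) P * ((zt q ^ i)⁻¹) ^ v =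
        ∑ j ∈ range q, (n j : ℂ) * ((zt q ^ j) ^ v * ((zt q ^ i)⁻¹) ^ v) := by
      intro v _
      rw [hn v, Finset.sum_mul]
      refine Finset.sum_congr rfl fun j _ => ?_
      rw [← pow_mul, ← pow_mul, mul_comm v j]
      ring
    rw [Finset.sum_congr rfl e1, Finset.sum_comm]
    have e2 : ∀ j ∈ range q, ∑ v ∈ range q, (n j : ℂ) * ((zt q ^ j) ^ v * ((zt q ^ i)⁻¹) ^ v) =
        if i = j then (n j : ℂ) * q else 0 := by
      intro j hj
      rw [← Finset.mul_sum, zt_orth q i j hq hi (Finset.mem_range.1 hj)]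
      split_ifs with h3
      · rfl
      · rw [mul_zero]
    rw [Finset.sum_congr rfl e2, Finset.sum_ite_eq, if_pos (Finset.mem_range.2 hi)]
    ring
  have hall : ∀ i < q, n i = n 0 := by
    intro i hi
    have e1 := inv i hi
    have e2 := inv 0 hq0
    have e3 : (q : ℂ) * ((n i - n 0 : ℤ) : ℂ) = ∑ v ∈ range q, Polynomial.aeval (zt q ^ v) P *
        (((zt q ^ i)⁻¹) ^ v - ((zt q ^ 0)⁻¹) ^ v) := by
      simp_rw [mul_sub]
      rw [Finset.sum_sub_distrib, ← e1, ← e2]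
      push_cast
      ring
    have e4 : ‖(q : ℂ) * ((n i - n 0 : ℤ) : ℂ)‖ < q := by
      rw [e3]
      obtain ⟨m, rfl⟩ : ∃ m, q = m + 1 := ⟨q - 1, by omega⟩
      rw [Finset.sum_range_succ']
      have e9 : Polynomial.aeval (zt (m + 1) ^ 0) P *
          (((zt (m + 1) ^ i)⁻¹) ^ 0 - ((zt (m + 1) ^ 0)⁻¹) ^ 0) = 0 := by
        rw [pow_zero ((zt (m + 1) ^ i)⁻¹), pow_zero ((zt (m + 1) ^ 0)⁻¹), sub_self, mul_zero]
      rw [e9, add_zero]
      refine (norm_sum_le _ _).trans_lt ?_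
      have e5 : ∀ v ∈ range m, ‖Polynomial.aeval (zt (m + 1) ^ (v + 1)) P *
          (((zt (m + 1) ^ i)⁻¹) ^ (v + 1) - ((zt (m + 1) ^ 0)⁻¹) ^ (v + 1))‖ ≤ 1 := by
        intro v hv
        rw [norm_mul]
        have e6 := h (v + 1) (by omega) (by have := Finset.mem_range.1 hv; omega)
        have e7 : ‖((zt (m + 1) ^ i)⁻¹) ^ (v + 1) - ((zt (m + 1) ^ 0)⁻¹) ^ (v + 1)‖ ≤ 2 := by
          refine (norm_sub_le _ _).trans ?_
          rw [norm_pow, norm_inv, norm_pow, norm_pow, norm_inv, norm_pow,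
            zt_norm (m + 1) hq]
          norm_num
        have e8 : 0 ≤ ‖((zt (m + 1) ^ i)⁻¹) ^ (v + 1) - ((zt (m + 1) ^ 0)⁻¹) ^ (v + 1)‖ :=
          norm_nonneg _
        nlinarith [norm_nonneg (Polynomial.aeval (zt (m + 1) ^ (v + 1)) P)]
      refine (Finset.sum_le_sum e5).trans_lt ?_
      rw [Finset.sum_const, Finset.card_range, nsmul_eq_mul, mul_one]
      push_cast
      linarith
    rw [norm_mul, Complex.norm_natCast, Complex.norm_intCast] at e4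
    have e5 : |((n i - n 0 : ℤ) : ℝ)| < 1 := by
      by_contra hcon
      rw [not_lt] at hcon
      nlinarith
    have e6 : |n i - n 0| < 1 := by exact_mod_cast e5
    rw [Int.abs_lt_one_iff] at e6
    omega
  rw [hn u]
  have e1 : ∀ i ∈ range q, (n i : ℂ) * (zt q ^ u) ^ i = (n 0 : ℂ) * (zt q ^ u) ^ i := by
    intro i hi
    rw [hall i (Finset.mem_range.1 hi)]
  rw [Finset.sum_congr rfl e1, ← Finset.mul_sum, zt_sum_zero q u hq h1 h2, mul_zero]

/-- cocompactness -/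
theorem cocp (q : ℕ) (hq : q ≠ 0) (s : Finset ℕ) (hs : ∀ u ∈ s, 1 ≤ u ∧ u < q)
    (hs2 : ∀ u ∈ s, q - u ∉ s) (w : s → ℂ) :
    ∃ P : Polynomial ℤ, ∀ u, ‖w u - pt q s P u‖ ≤ q := by
  classical
  have hqr : (0 : ℝ) < (q : ℝ) := by exact_mod_cast Nat.pos_of_ne_zero hq
  have hqc : (q : ℂ) ≠ 0 := Nat.cast_ne_zero.2 hq
  obtain ⟨n, hn⟩ : ∃ n : ℕ → ℝ, ∀ i, (n i : ℂ) = (q : ℂ)⁻¹ * ∑ u : s,
      (w u * ((zt q ^ (u : ℕ))⁻¹) ^ i + (starRingEnd ℂ) (w u) * (zt q ^ (u : ℕ)) ^ i) := by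
    refine ⟨fun i => (q : ℝ)⁻¹ * ∑ u : s, 2 * (w u * ((zt q ^ (u : ℕ))⁻¹) ^ i).re, fun i => ?_⟩
    push_cast
    congr 1
    refine Finset.sum_congr rfl fun u _ => ?_
    have h1 : (starRingEnd ℂ) (w u) * (zt q ^ (u : ℕ)) ^ i =
        (starRingEnd ℂ) (w u * ((zt q ^ (u : ℕ))⁻¹) ^ i) := by
      rw [map_mul, map_pow, map_inv₀, map_pow, zt_conj q hq, inv_pow (zt q), inv_inv]
    rw [h1, Complex.add_conj]
    push_cast
    ring
  have key : ∀ v : s, ∑ i ∈ range q, (n i : ℂ) * (zt q ^ (v : ℕ)) ^ i = w v := by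
    intro v
    obtain ⟨v1, v2⟩ := hs v v.2
    have e1 : ∀ i ∈ range q, (n i : ℂ) * (zt q ^ (v : ℕ)) ^ i = (q : ℂ)⁻¹ * ∑ u : s,
        (w u * ((zt q ^ (v : ℕ)) ^ i * ((zt q ^ (u : ℕ))⁻¹) ^ i) +
          (starRingEnd ℂ) (w u) * ((zt q ^ (v : ℕ)) ^ i * (zt q ^ (u : ℕ)) ^ i)) := by
      intro i _
      rw [hn i, mul_assoc, Finset.sum_mul]
      congr 1
      refine Finset.sum_congr rfl fun u _ => ?_
      ring
    rw [Finset.sum_congr rfl e1, ← Finset.mul_sum, Finset.sum_comm]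
    have e2 : ∀ u : s, ∑ i ∈ range q,
        (w u * ((zt q ^ (v : ℕ)) ^ i * ((zt q ^ (u : ℕ))⁻¹) ^ i) +
          (starRingEnd ℂ) (w u) * ((zt q ^ (v : ℕ)) ^ i * (zt q ^ (u : ℕ)) ^ i)) =
        if u = v then w u * q else 0 := by
      intro u
      obtain ⟨u1, u2⟩ := hs u u.2
      rw [Finset.sum_add_distrib, ← Finset.mul_sum, ← Finset.mul_sum, zt_orth q u v hq u2 v2,
        zt_orth2 q u v hq u1 u2 v1 v2 (by
          intro h
          apply hs2 u u.2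
          have : q - (u : ℕ) = v := by omega
          rw [this]
          exact v.2), mul_zero, add_zero]
      by_cases h : u = v
      · rw [if_pos h, if_pos (by rw [h])]
      · rw [if_neg h, if_neg (fun h' => h (Subtype.ext h')), mul_zero]
    rw [Finset.sum_congr rfl fun u _ => e2 u, Finset.sum_ite_eq' univ v,
      if_pos (Finset.mem_univ v)]
    field_simp
  refine ⟨∑ i ∈ range q, Polynomial.C (round (n i)) * Polynomial.X ^ i, fun v => ?_⟩
  have e3 : pt q s (∑ i ∈ range q, Polynomial.C (round (n i)) * Polynomial.X ^ i) v =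
      ∑ i ∈ range q, ((round (n i) : ℤ) : ℂ) * (zt q ^ (v : ℕ)) ^ i := by
    unfold pt
    rw [map_sum]
    refine Finset.sum_congr rfl fun i _ => ?_
    rw [map_mul, map_pow, Polynomial.aeval_X, Polynomial.aeval_C]
    rfl
  rw [e3, ← key v, ← Finset.sum_sub_distrib]
  refine (norm_sum_le _ _).trans ?_
  have e4 : ∀ i ∈ range q, ‖(n i : ℂ) * (zt q ^ (v : ℕ)) ^ i -
      ((round (n i) : ℤ) : ℂ) * (zt q ^ (v : ℕ)) ^ i‖ ≤ 1 := by
    intro i _
    rw [← sub_mul, norm_mul, norm_pow, norm_pow, zt_norm q hq, one_pow, one_pow, mul_one]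
    have e5 : (n i : ℂ) - ((round (n i) : ℤ) : ℂ) = ((n i - round (n i) : ℝ) : ℂ) := by
      push_cast
      ring
    rw [e5, Complex.norm_real, Real.norm_eq_abs]
    exact (abs_sub_round (n i)).trans (by norm_num)
  refine (Finset.sum_le_sum e4).trans ?_
  rw [Finset.sum_const, Finset.card_range, nsmul_eq_mul, mul_one]

end Pool.Agent.Helper59.LT
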