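import Pool.Agent.Helper59.LT.PolA

/-!
PROJECT LT, part A2: restriction to lines, more variables, monomials.
-/

set_option autoImplicit false

namespace Pool.Agent.Helper59.LT

open Finset
open Pool.Agent.Helper34.LT Pool.Agent.Helper13.LT

section line

variable {I : Type} [Fintype I]

/-- restriction to a line, coefficients -/
theorem line_hasSum {c : (I → ℕ) → ℂ} {F : (I → ℂ) → ℂ} (h : PS c F) (z : I → ℂ) :
    ∃ b : ℕ → ℂ, (∀ s : ℂ, HasSum (fun n => b n * s ^ n) (F (s • z))) ∧
      ∀ n, (∀ p : I → ℕ, ∑ u, p u = n → c p = 0) → b n = 0 := by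
  classical
  have h0 : ∀ p : I → ℕ, ∀ s : ℂ, c p * ∏ u, (s • z) u ^ p u =
      (c p * ∏ u, z u ^ p u) * s ^ (∑ u, p u) := by
    intro p s
    have : ∀ u, (s • z) u ^ p u = s ^ p u * z u ^ p u := by
      intro u
      rw [Pi.smul_apply, smul_eq_mul, mul_pow]
    simp_rw [this]
    rw [Finset.prod_mul_distrib, Finset.prod_pow_eq_pow_sum]
    ring
  have hsum : ∀ n : ℕ, Summable fun p : {p : I → ℕ // ∑ u, p u = n} =>
      c p.1 * ∏ u, z u ^ p.1 u := fun n => (h z).summable.subtype _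
  refine ⟨fun n => ∑' p : {p : I → ℕ // ∑ u, p u = n}, c p.1 * ∏ u, z u ^ p.1 u, ?_, ?_⟩
  · intro s
    have h1 := h (s • z)
    simp_rw [h0] at h1
    rw [← (Equiv.sigmaFiberEquiv (fun p : I → ℕ => ∑ u, p u)).hasSum_iff] at h1
    refine h1.sigma fun n => ?_
    have h2 := (hsum n).hasSum.mul_right (s ^ n)
    have h3 : (fun p : {p : I → ℕ // ∑ u, p u = n} =>
        (c p.1 * ∏ u, z u ^ p.1 u) * s ^ (∑ u, p.1 u)) =
        fun p => (c p.1 * ∏ u, z u ^ p.1 u) * s ^ n := by
      funext p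
      rw [p.2]
    rw [← h3] at h2
    exact h2
  · intro n hn
    change ∑' p : {p : I → ℕ // ∑ u, p u = n}, c p.1 * ∏ u, z u ^ p.1 u = 0
    have : ∀ p : {p : I → ℕ // ∑ u, p u = n}, c p.1 * ∏ u, z u ^ p.1 u = 0 := by
      intro p
      rw [hn p.1 p.2, zero_mul]
    simp_rw [this]
    exact tsum_zero

theorem one_var {h : ℂ → ℂ} (hd : Differentiable ℂ h) {b : ℕ → ℂ}
    (hb : ∀ s : ℂ, HasSum (fun n => b n * s ^ n) (h s)) (j : ℕ) :
    iteratedDeriv j h 0 = (j.factorial : ℂ) * b j := by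
  have h1 : PS (fun m : Unit → ℕ => b (m ())) (fun z : Unit → ℂ => h (z ())) := by
    intro z
    have h2 := hb (z ())
    rw [← (Equiv.funUnique Unit ℕ).hasSum_iff] at h2
    convert h2 using 1
    funext m
    simp
  have h2 : PS (fun m : Unit → ℕ => ((m ()).factorial : ℂ)⁻¹ * iteratedDeriv (m ()) h 0)
      (fun z : Unit → ℂ => h (z ())) := by
    intro z
    have h3 := Complex.hasSum_taylorSeries_of_entire hd 0 (z ())
    rw [← (Equiv.funUnique Unit ℕ).hasSum_iff] at h3
    have h4 : (fun m : Unit → ℕ => ((m ()).factorial : ℂ)⁻¹ * iteratedDeriv (m ()) h 0 *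
        ∏ u, z u ^ m u) = ((fun n => ((n.factorial : ℂ))⁻¹ • (z () - 0) ^ n •
          iteratedDeriv n h 0) ∘ ⇑(Equiv.funUnique Unit ℕ)) := by
      funext m
      simp
      ring
    rw [h4]
    exact h3
  have h3 := congrFun (PS.unique h1 h2) (fun _ => j)
  simp only at h3
  rw [h3, mul_inv_cancel_left₀ (Nat.cast_ne_zero.2 (Nat.factorial_ne_zero j))]

/-- vanishing Taylor coefficients of total degree `j` -/
theorem line_zero {c : (I → ℕ) → ℂ} {F : (I → ℂ) → ℂ} (h : PS c F) (z : I → ℂ) (j : ℕ)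
    (hj : ∀ p : I → ℕ, ∑ u, p u = j → c p = 0) :
    iteratedDeriv j (fun s : ℂ => F (s • z)) 0 = 0 := by
  obtain ⟨b, h1, h2⟩ := line_hasSum h z
  have hd : Differentiable ℂ (fun s : ℂ => F (s • z)) := by
    have h3 := PS.diff h
    have h4 : Differentiable ℂ (fun s : ℂ => s • z) := differentiable_id.smul_const z
    exact h3.comp h4
  rw [one_var hd h1 j, h2 j hj, mul_zero]

end line

section ext

variable {I J : Type} [Fintype I] [Fintype J]

theorem prod_extend {M : Type} [CommMonoid M] (e : I → J) (he : Function.Injective e)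
    (φ : J → ℕ → M) (h0 : ∀ j, φ j 0 = 1) (m : I → ℕ) :
    ∏ j, φ j (Function.extend e m 0 j) = ∏ i, φ (e i) (m i) := by
  classical
  rw [← Finset.prod_subset (Finset.subset_univ (univ.image e))]
  · rw [Finset.prod_image (fun x _ y _ hxy => he hxy)]
    exact Finset.prod_congr rfl fun i _ => by rw [he.extend_apply]
  · intro j _ hj
    have : ¬ ∃ i, e i = j := by
      rintro ⟨i, rfl⟩
      exact hj (Finset.mem_image_of_mem _ (Finset.mem_univ i))
    rw [Function.extend_apply' _ _ _ this, Pi.zero_apply, h0]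

theorem sum_extend (e : I → J) (he : Function.Injective e) (m : I → ℕ) :
    ∑ j, Function.extend e m 0 j = ∑ i, m i := by
  classical
  rw [← Finset.sum_subset (Finset.subset_univ (univ.image e))]
  · rw [Finset.sum_image (fun x _ y _ hxy => he hxy)]
    exact Finset.sum_congr rfl fun i _ => by rw [he.extend_apply]
  · intro j _ hj
    have : ¬ ∃ i, e i = j := by
      rintro ⟨i, rfl⟩
      exact hj (Finset.mem_image_of_mem _ (Finset.mem_univ i))
    rw [Function.extend_apply' _ _ _ this, Pi.zero_apply]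

/-- more variables -/
theorem RT_emb {D k : ℕ} {F : (I → ℂ) → ℂ} (h : RT D k F) (e : I → J)
    (he : Function.Injective e) : RT D k (fun x : J → ℂ => F fun i => x (e i)) := by
  classical
  obtain ⟨A, hA⟩ := h
  refine ⟨fun n => if n ∈ Set.range (fun m : I → ℕ => Function.extend e m 0) then
    A (fun i => n (e i)) else 0, fun x => ?_⟩
  have hinj : Function.Injective (fun m : I → ℕ => (Function.extend e m 0 : J → ℕ)) := by
    intro m m' hm
    funext i
    have := congrFun hm (e i)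
    simpa only [he.extend_apply] using this
  rw [← hinj.hasSum_iff]
  · convert hA (fun i => x (e i)) using 1
    funext m
    have h1 : (fun i => Function.extend e m 0 (e i)) = m := by
      funext i
      rw [he.extend_apply]
    simp only [Function.comp_apply]
    rw [if_pos ⟨m, rfl⟩, h1, sum_extend e he m,
      prod_extend e he (fun _ n => ((n.factorial : ℕ) : ℂ)) (fun _ => by simp) m,
      prod_extend e he (fun j n => x j ^ n) (fun _ => pow_zero _) m]
  · intro n hn
    simp only [if_neg hn, Int.cast_zero, zero_div, zero_mul]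

end ext

section mon

variable {I : Type} [Fintype I]

theorem RT_prod {α : Type} (s : Finset α) {D : ℕ} (hD : 1 ≤ D) {k : α → ℕ}
    {f : α → (I → ℂ) → ℂ} (h : ∀ i ∈ s, RT D (k i) (f i)) :
    RT D (∑ i ∈ s, k i) (fun z => ∏ i ∈ s, f i z) := by
  classical
  induction s using Finset.induction_on with
  | empty =>
    have h1 := RT.const (ι := I) hD 1
    simpa using h1
  | insert a s ha ih =>
    have h1 := ih fun i hi => h i (Finset.mem_insert_of_mem hi)
    have h2 := RT.mul hD (h a (Finset.mem_insert_self a s)) h1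
    rw [Finset.sum_insert ha]
    convert h2 using 2 with z
    rw [Finset.prod_insert ha]

theorem RT_mon {D : ℕ} (hD : 1 ≤ D) {g : ℕ} (L : ℕ) {f0 : (I → ℂ) → ℂ}
    {f : Fin g → (I → ℂ) → ℂ} (h0 : RT D 1 f0) (h : ∀ i, RT D 1 (f i))
    (e : Fin g → Fin (L + 1)) : RT D (g * L) (mon g L f0 f e) := by
  have h1 := RT.pow hD h0 (g * L - ∑ i, (e i : ℕ))
  have h2 := RT_prod (univ : Finset (Fin g)) hD
    (fun i _ => RT.pow hD (h i) (e i : ℕ))
  have h3 := RT.mul hD h1 h2
  have h4 : ∑ i, (e i : ℕ) ≤ g * L := by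
    calc ∑ i, (e i : ℕ) ≤ ∑ _i : Fin g, L := Finset.sum_le_sum fun i _ => by omega
      _ = g * L := by rw [Finset.sum_const, Finset.card_univ, Fintype.card_fin, smul_eq_mul]
  have h5 : 1 * (g * L - ∑ i, (e i : ℕ)) + ∑ i, 1 * (e i : ℕ) = g * L := by
    simp only [one_mul]
    omega
  rw [h5] at h3
  exact h3

/-- bound of a monomial -/
theorem mon_bound {g : ℕ} (L : ℕ) {f0 : (I → ℂ) → ℂ} {f : Fin g → (I → ℂ) → ℂ} {z : I → ℂ}
    {B : ℝ} (h0 : ‖f0 z‖ ≤ B) (h : ∀ i, ‖f i z‖ ≤ B) (e : Fin g → Fin (L + 1)) :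
    ‖mon g L f0 f e z‖ ≤ B ^ (g * L) := by
  have hB : 0 ≤ B := (norm_nonneg _).trans h0
  have h4 : ∑ i, (e i : ℕ) ≤ g * L := by
    calc ∑ i, (e i : ℕ) ≤ ∑ _i : Fin g, L := Finset.sum_le_sum fun i _ => by omega
      _ = g * L := by rw [Finset.sum_const, Finset.card_univ, Fintype.card_fin, smul_eq_mul]
  unfold mon
  rw [norm_mul, norm_pow, norm_prod]
  calc ‖f0 z‖ ^ (g * L - ∑ i, (e i : ℕ)) * ∏ i, ‖f i z ^ (e i : ℕ)‖
      ≤ B ^ (g * L - ∑ i, (e i : ℕ)) * ∏ i, B ^ (e i : ℕ) := by
        refine mul_le_mul (pow_le_pow_left₀ (norm_nonneg _) h0 _) ?_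
          (Finset.prod_nonneg fun i _ => norm_nonneg _) (pow_nonneg hB _)
        refine Finset.prod_le_prod (fun i _ => norm_nonneg _) fun i _ => ?_
        rw [norm_pow]
        exact pow_le_pow_left₀ (norm_nonneg _) (h i) _
    _ = B ^ (g * L) := by
        rw [Finset.prod_pow_eq_pow_sum, ← pow_add]
        congr 1
        omega

end mon

end Pool.Agent.Helper59.LT
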