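import Pool.Agent.Helper34.LT.Ad
import Pool.Agent.Helper59.LT.PolB

/-!
PROJECT LT, part A2: the polynomials.
-/

set_option autoImplicit false

namespace Pool.Agent.Helper59.LT

open Finset
open Pool.Agent.Helper34.LT Pool.Agent.Helper13.LT

/-- index map -/
def piK (q : ℕ) : Phi q 1 1 ⊕ Phi q 1 3 → Psi q :=
  Sum.elim (fun u => ⟨u, subset_union_left (s₂ := Phi q 1 3) u.2⟩)
    (fun v => ⟨v, subset_union_right (s₁ := Phi q 1 1) v.2⟩)

/-- the function on `C^(Phi_1 ⊕ Phi_2)` -/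
noncomputable def GG (q L : ℕ) (f0 : (Phi q 1 1 → ℂ) → ℂ)
    (f : Fin ((q - 1) / 2) → (Phi q 1 1 → ℂ) → ℂ)
    (g0 : (Phi q 1 3 → ℂ) → ℂ) (g : Fin ((q - 1) / 2) → (Phi q 1 3 → ℂ) → ℂ)
    (c : Ex q L × Ex q L → ℂ) (x : Phi q 1 1 ⊕ Phi q 1 3 → ℂ) : ℂ :=
  ∑ e, c e * mon ((q - 1) / 2) L f0 f e.1 (fun u => x (Sum.inl u)) *
    mon ((q - 1) / 2) L g0 g e.2 (fun v => x (Sum.inr v))

theorem FF_eq (q L : ℕ) (f0 : (Phi q 1 1 → ℂ) → ℂ)
    (f : Fin ((q - 1) / 2) → (Phi q 1 1 → ℂ) → ℂ)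
    (g0 : (Phi q 1 3 → ℂ) → ℂ) (g : Fin ((q - 1) / 2) → (Phi q 1 3 → ℂ) → ℂ)
    (c : Ex q L × Ex q L → ℂ) (X : Phi q 1 1 → ℂ) (Y : Phi q 1 3 → ℂ) (z : Psi q → ℂ) :
    FF q L f0 f g0 g c X Y z =
      GG q L f0 f g0 g c (fun i => Sum.elim X Y i * z (piK q i)) := rfl

theorem RT_GG (q L : ℕ) {f0 : (Phi q 1 1 → ℂ) → ℂ}
    {f : Fin ((q - 1) / 2) → (Phi q 1 1 → ℂ) → ℂ}
    {g0 : (Phi q 1 3 → ℂ) → ℂ} {g : Fin ((q - 1) / 2) → (Phi q 1 3 → ℂ) → ℂ}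
    {D : ℕ} (hD : 1 ≤ D) (h0 : RT D 1 f0) (h1 : ∀ i, RT D 1 (f i)) (h2 : RT D 1 g0)
    (h3 : ∀ i, RT D 1 (g i)) (c : Ex q L × Ex q L → ℤ) :
    RT D ((q - 1) / 2 * L + (q - 1) / 2 * L) (GG q L f0 f g0 g (fun e => (c e : ℂ))) := by
  unfold GG
  refine RT.sum univ hD fun e _ => ?_
  refine RT.mul hD (RT.zsmul hD ?_ (c e)) ?_
  · exact RT_emb (RT_mon hD L h0 h1 e.1) Sum.inl Sum.inl_injective
  · exact RT_emb (RT_mon hD L h2 h3 e.2) Sum.inr Sum.inr_injective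

theorem log_ge_one {T : ℕ} (hT : 1 ≤ T) : (1 : ℝ) ≤ Real.log (T + 2) := by
  rw [Real.le_log_iff_exp_le (by positivity)]
  have h1 := Real.exp_one_lt_d9
  have h2 : (1 : ℝ) ≤ (T : ℝ) := by exact_mod_cast hT
  linarith

theorem fac_bound {K : Type} [Fintype K] {D T k k' : ℕ} (hD : 1 ≤ D) (hk : k ≤ k' * T)
    (hT : 1 ≤ T) (p : K → ℕ) (hp : ∀ u, p u ≤ T) :
    (D : ℝ) ^ (∑ u, p u + k) * ∏ u, ((p u).factorial : ℝ) ≤
      Real.exp ((Real.log D * (Fintype.card K + k') + Fintype.card K) *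
        (T * Real.log (T + 2))) := by
  have hl := log_ge_one hT
  have hTr : (1 : ℝ) ≤ (T : ℝ) := by exact_mod_cast hT
  have hDr : (1 : ℝ) ≤ (D : ℝ) := by exact_mod_cast hD
  have hlD : 0 ≤ Real.log D := Real.log_nonneg hDr
  have hx : (T : ℝ) ≤ T * Real.log (T + 2) := by nlinarith
  rw [add_mul, Real.exp_add]
  refine mul_le_mul ?_ ?_ (Finset.prod_nonneg fun u _ => by positivity) (Real.exp_pos _).le
  · have h1 : (D : ℝ) ^ (∑ u, p u + k) = Real.exp (Real.log D * (∑ u, p u + k : ℕ)) := by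
      rw [← Real.rpow_natCast, Real.rpow_def_of_pos (by linarith)]
    rw [h1]
    refine Real.exp_le_exp.2 ?_
    rw [mul_assoc]
    refine mul_le_mul_of_nonneg_left ?_ hlD
    have h2 : (∑ u, p u + k : ℕ) ≤ (Fintype.card K + k') * T := by
      have : ∑ u, p u ≤ Fintype.card K * T := by
        calc ∑ u, p u ≤ ∑ _u : K, T := Finset.sum_le_sum fun u _ => hp u
          _ = Fintype.card K * T := by rw [Finset.sum_const, Finset.card_univ, smul_eq_mul]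
      rw [add_mul]
      omega
    have h3 : ((∑ u, p u + k : ℕ) : ℝ) ≤ (Fintype.card K + k') * T := by exact_mod_cast h2
    refine h3.trans ?_
    exact mul_le_mul_of_nonneg_left hx (by positivity)
  · calc ∏ u, ((p u).factorial : ℝ) ≤ ∏ _u : K, ((T : ℝ) + 2) ^ T := by
          refine Finset.prod_le_prod (fun u _ => by positivity) fun u _ => ?_
          have h1 : (p u).factorial ≤ T ^ T :=
            (Nat.factorial_le (hp u)).trans (Nat.factorial_le_pow T)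
          have h2 : ((p u).factorial : ℝ) ≤ (T : ℝ) ^ T := by exact_mod_cast h1
          refine h2.trans (pow_le_pow_left₀ (by positivity) (by linarith) _)
      _ = Real.exp (Fintype.card K * (T * Real.log (T + 2))) := by
          rw [Finset.prod_const, Finset.card_univ, ← pow_mul, ← Real.rpow_natCast,
            Real.rpow_def_of_pos (by positivity)]
          congr 1
          push_cast
          ring

theorem GG_bound (q L T : ℕ) {f0 : (Phi q 1 1 → ℂ) → ℂ}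
    {f : Fin ((q - 1) / 2) → (Phi q 1 1 → ℂ) → ℂ}
    {g0 : (Phi q 1 3 → ℂ) → ℂ} {g : Fin ((q - 1) / 2) → (Phi q 1 3 → ℂ) → ℂ}
    {b1 b2 : ℝ} (hb1 : 0 ≤ b1) (hb2 : 0 ≤ b2)
    (h1 : ∀ z, ‖z‖ ≤ 1 → ‖f0 z‖ ≤ Real.exp b1 ∧ ∀ i, ‖f i z‖ ≤ Real.exp b1)
    (h2 : ∀ z, ‖z‖ ≤ 1 → ‖g0 z‖ ≤ Real.exp b2 ∧ ∀ i, ‖g i z‖ ≤ Real.exp b2)
    (hT : 1 ≤ T) (hLT : L ≤ T) (c : Ex q L × Ex q L → ℤ)
    (hc : ∀ e, |(c e : ℝ)| ≤ Real.exp T) (x : Phi q 1 1 ⊕ Phi q 1 3 → ℂ) (hx : ‖x‖ ≤ 1) :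
    ‖GG q L f0 f g0 g (fun e => (c e : ℂ)) x‖ ≤
      Real.exp ((2 * ((q - 1) / 2 : ℕ) + 1 + (b1 + b2) * ((q - 1) / 2 : ℕ)) *
        (T * Real.log (T + 2))) := by
  have hl := log_ge_one hT
  have hTr : (1 : ℝ) ≤ (T : ℝ) := by exact_mod_cast hT
  have hLr : (L : ℝ) ≤ (T : ℝ) := by exact_mod_cast hLT
  have hxT : (T : ℝ) ≤ T * Real.log (T + 2) := by nlinarith
  obtain ⟨w, hw⟩ : ∃ w : ℝ, w = T * Real.log (T + 2) := ⟨_, rfl⟩
  rw [← hw] at hxT ⊢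
  obtain ⟨n, hn⟩ : ∃ n : ℕ, n = (q - 1) / 2 := ⟨_, rfl⟩
  have hx1 : ‖fun u : Phi q 1 1 => x (Sum.inl u)‖ ≤ 1 := by
    rw [pi_norm_le_iff_of_nonneg zero_le_one]
    exact fun u => (norm_le_pi_norm x _).trans hx
  have hx2 : ‖fun v : Phi q 1 3 => x (Sum.inr v)‖ ≤ 1 := by
    rw [pi_norm_le_iff_of_nonneg zero_le_one]
    exact fun u => (norm_le_pi_norm x _).trans hx
  have ht : ∀ e : Ex q L × Ex q L, ‖(c e : ℂ) *
      mon ((q - 1) / 2) L f0 f e.1 (fun u => x (Sum.inl u)) *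
      mon ((q - 1) / 2) L g0 g e.2 (fun v => x (Sum.inr v))‖ ≤
      Real.exp (w + (b1 + b2) * ((q - 1) / 2 : ℕ) * w) := by
    intro e
    have a1 := mon_bound L (h1 _ hx1).1 (h1 _ hx1).2 e.1
    have a2 := mon_bound L (h2 _ hx2).1 (h2 _ hx2).2 e.2
    have a0 : ‖(c e : ℂ)‖ ≤ Real.exp w := by
      rw [Complex.norm_intCast]
      exact (hc e).trans (Real.exp_le_exp.2 hxT)
    rw [← Real.exp_nat_mul] at a1 a2
    have hn' : (((q - 1) / 2 : ℕ) : ℝ) = (n : ℝ) := by rw [hn]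
    have hn2 : ((((q - 1) / 2) * L : ℕ) : ℝ) = ((n * L : ℕ) : ℝ) := by rw [hn]
    rw [hn2] at a1 a2
    rw [norm_mul, norm_mul, hn']
    calc ‖(c e : ℂ)‖ * ‖mon ((q - 1) / 2) L f0 f e.1 (fun u => x (Sum.inl u))‖ *
          ‖mon ((q - 1) / 2) L g0 g e.2 (fun v => x (Sum.inr v))‖
        ≤ Real.exp w * Real.exp ((n * L : ℕ) * b1) * Real.exp ((n * L : ℕ) * b2) := by
          gcongr
      _ = Real.exp (w + (n * L : ℕ) * b1 + (n * L : ℕ) * b2) := by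
          rw [Real.exp_add, Real.exp_add]
      _ ≤ Real.exp (w + (b1 + b2) * n * w) := by
          refine Real.exp_le_exp.2 ?_
          have h5 : ((n * L : ℕ) : ℝ) * b1 + (n * L : ℕ) * b2 = (b1 + b2) * n * L := by
            push_cast
            ring
          have h6 : (b1 + b2) * n * L ≤ (b1 + b2) * n * w :=
            mul_le_mul_of_nonneg_left (hLr.trans hxT) (by positivity)
          linarith
  unfold GG
  refine (norm_sum_le _ _).trans ?_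
  refine (Finset.sum_le_sum fun e _ => ht e).trans ?_
  rw [Finset.sum_const, Finset.card_univ, nsmul_eq_mul]
  have hcard : (Fintype.card (Ex q L × Ex q L) : ℝ) ≤ Real.exp (2 * ((q - 1) / 2 : ℕ) * w) := by
    rw [Fintype.card_prod, Fintype.card_fun, Fintype.card_fin, Fintype.card_fin]
    push_cast
    have h7 : ((L : ℝ) + 1) ≤ Real.exp w := by
      have : (L : ℝ) + 1 ≤ Real.exp (Real.log (T + 2)) := by
        rw [Real.exp_log (by positivity)]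
        linarith
      refine this.trans (Real.exp_le_exp.2 ?_)
      rw [hw]
      nlinarith
    calc ((L : ℝ) + 1) ^ ((q - 1) / 2) * ((L : ℝ) + 1) ^ ((q - 1) / 2)
        ≤ Real.exp w ^ ((q - 1) / 2) * Real.exp w ^ ((q - 1) / 2) := by gcongr
      _ = Real.exp (2 * ((q - 1) / 2 : ℕ) * w) := by
          rw [← Real.exp_nat_mul, ← Real.exp_add]
          congr 1
          ring
  calc (Fintype.card (Ex q L × Ex q L) : ℝ) * Real.exp (w + (b1 + b2) * ((q - 1) / 2 : ℕ) * w)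
      ≤ Real.exp (2 * ((q - 1) / 2 : ℕ) * w) *
        Real.exp (w + (b1 + b2) * ((q - 1) / 2 : ℕ) * w) := by gcongr
    _ = Real.exp ((2 * ((q - 1) / 2 : ℕ) + 1 + (b1 + b2) * ((q - 1) / 2 : ℕ)) * w) := by
        rw [← Real.exp_add]
        congr 1
        ring

theorem exists_poly (q : ℕ) (hq : q.Prime) (h41 : 41 ≤ q) (κ1 : Phi q 1 1 → ℂ)
    (c1 : Polynomial ℤ → ℂ)
    (f0 : (Phi q 1 1 → ℂ) → ℂ) (f : Fin ((q - 1) / 2) → (Phi q 1 1 → ℂ) → ℂ)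
    (h1 : IsSys q 1 1 κ1 c1 f0 f)
    (κ2 : Phi q 1 3 → ℂ) (c2 : Polynomial ℤ → ℂ)
    (g0 : (Phi q 1 3 → ℂ) → ℂ) (g : Fin ((q - 1) / 2) → (Phi q 1 3 → ℂ) → ℂ)
    (h2 : IsSys q 1 3 κ2 c2 g0 g) :
    ∃ C : ℝ, 1 ≤ C ∧ ∀ (L : ℕ) (T : ℕ), 1 ≤ L → L ≤ T → ∀ c : Ex q L × Ex q L → ℤ,
      (∀ e, |(c e : ℝ)| ≤ Real.exp T) →
      ∃ P : (Psi q → Fin (T + 1)) → MvPolynomial (Phi q 1 1 ⊕ Phi q 1 3) ℤ,
        (∀ m, ((P m).totalDegree : ℝ) ≤ C * T) ∧
        (∀ m k, |(((P m).coeff k : ℤ) : ℝ)| ≤ Real.exp (C * T * Real.log (T + 2))) ∧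
        (∀ U : ℝ, (∀ z, ‖z‖ ≤ 1 → ‖FF q L f0 f g0 g (fun e => (c e : ℂ)) (fun u => rho q 1 1 u)
            (fun u => rho q 1 3 u) z‖ ≤ Real.exp (-U)) →
          ∀ m, ‖MvPolynomial.aeval (Sum.elim (fun u : Phi q 1 1 => rho q 1 1 u)
            (fun v : Phi q 1 3 => rho q 1 3 v)) (P m)‖ ≤
              Real.exp (C * T * Real.log (T + 2) - U)) ∧
        (∀ (X : Phi q 1 1 → ℂ) (Y : Phi q 1 3 → ℂ),
          (∀ m, MvPolynomial.aeval (Sum.elim X Y) (P m) = 0) →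
          ∀ z, ∀ j ≤ T, iteratedDeriv j
            (fun s : ℂ => FF q L f0 f g0 g (fun e => (c e : ℂ)) X Y (s • z)) 0 = 0) := by
  obtain ⟨C1, hC1⟩ := h1.growth
  obtain ⟨C2, hC2⟩ := h2.growth
  obtain ⟨D1, hD1, r1, r2⟩ := h1.rt
  obtain ⟨D2, hD2, r3, r4⟩ := h2.rt
  have hD : 1 ≤ D1 * D2 := Nat.mul_pos hD1 hD2
  obtain ⟨D, hDd⟩ : ∃ D, D = D1 * D2 := ⟨_, rfl⟩
  have hDp : 1 ≤ D := by rw [hDd]; exact hD
  have hdv1 : D1 ∣ D := by rw [hDd]; exact dvd_mul_right _ _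
  have hdv2 : D2 ∣ D := by rw [hDd]; exact dvd_mul_left _ _
  have s1 := RT.mono hD1 hDp hdv1 le_rfl r1
  have s2 := fun i => RT.mono hD1 hDp hdv1 le_rfl (r2 i)
  have s3 := RT.mono hD2 hDp hdv2 le_rfl r3
  have s4 := fun i => RT.mono hD2 hDp hdv2 le_rfl (r4 i)
  have hgr : ∀ {ι : Type} [Fintype ι] (C : ℝ) (z : ι → ℂ), ‖z‖ ≤ 1 →
      Real.exp (C * (1 + ‖z‖ ^ 2)) ≤ Real.exp (2 * |C|) := by
    intro ι _ C z hz
    refine Real.exp_le_exp.2 ?_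
    have h3 : ‖z‖ ^ 2 ≤ 1 := pow_le_one₀ (norm_nonneg _) hz
    have h4 : C * (1 + ‖z‖ ^ 2) ≤ |C| * (1 + ‖z‖ ^ 2) :=
      mul_le_mul_of_nonneg_right (le_abs_self C) (by positivity)
    have h5 : |C| * (1 + ‖z‖ ^ 2) ≤ |C| * 2 :=
      mul_le_mul_of_nonneg_left (by linarith) (abs_nonneg C)
    linarith
  have b1 : ∀ z, ‖z‖ ≤ 1 → ‖f0 z‖ ≤ Real.exp (2 * |C1|) ∧ ∀ i, ‖f i z‖ ≤ Real.exp (2 * |C1|) :=
    fun z hz => ⟨(hC1 z).1.trans (hgr C1 z hz), fun i => ((hC1 z).2 i).trans (hgr C1 z hz)⟩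
  have b2 : ∀ z, ‖z‖ ≤ 1 → ‖g0 z‖ ≤ Real.exp (2 * |C2|) ∧ ∀ i, ‖g i z‖ ≤ Real.exp (2 * |C2|) :=
    fun z hz => ⟨(hC2 z).1.trans (hgr C2 z hz), fun i => ((hC2 z).2 i).trans (hgr C2 z hz)⟩
  obtain ⟨a, ha⟩ : ∃ a : ℝ, a = 2 * ((q - 1) / 2 : ℕ) + 1 +
    (2 * |C1| + 2 * |C2|) * ((q - 1) / 2 : ℕ) := ⟨_, rfl⟩
  obtain ⟨b, hb⟩ : ∃ b : ℝ, b = Real.log D *
    (Fintype.card (Psi q) + (2 * ((q - 1) / 2) : ℕ)) + Fintype.card (Psi q) := ⟨_, rfl⟩
  have ha0 : 1 ≤ a := by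
    rw [ha]
    have : 0 ≤ (2 * |C1| + 2 * |C2|) * ((q - 1) / 2 : ℕ) := by positivity
    have h3 : (0 : ℝ) ≤ 2 * ((q - 1) / 2 : ℕ) := by positivity
    linarith
  have hlD : 0 ≤ Real.log D := Real.log_nonneg (by exact_mod_cast hDp)
  have hb0 : (Fintype.card (Psi q) : ℝ) ≤ b := by
    rw [hb]
    have : 0 ≤ Real.log D * (Fintype.card (Psi q) + (2 * ((q - 1) / 2) : ℕ)) := by positivity
    linarith
  have hb00 : 0 ≤ b := le_trans (by positivity) hb0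
  refine ⟨a + b, by linarith, fun L T hL hLT c hc => ?_⟩
  have hT : 1 ≤ T := hL.trans hLT
  have hTr : (1 : ℝ) ≤ (T : ℝ) := by exact_mod_cast hT
  have hl := log_ge_one hT
  have hxT : (T : ℝ) ≤ T * Real.log (T + 2) := by nlinarith
  obtain ⟨P, p1, p2, p3⟩ := poly_abs (piK q) hDp (RT_GG q L hDp s1 s2 s3 s4 c)
  have hk : (q - 1) / 2 * L + (q - 1) / 2 * L ≤ 2 * ((q - 1) / 2) * T := by
    have : (q - 1) / 2 * L ≤ (q - 1) / 2 * T := Nat.mul_le_mul_left _ hLT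
    calc (q - 1) / 2 * L + (q - 1) / 2 * L ≤ (q - 1) / 2 * T + (q - 1) / 2 * T := by omega
      _ = 2 * ((q - 1) / 2) * T := by ring
  have hfac : ∀ m : Psi q → Fin (T + 1), (D : ℝ) ^ (∑ u, (m u : ℕ) +
      ((q - 1) / 2 * L + (q - 1) / 2 * L)) * ∏ u, (((m u : ℕ).factorial : ℕ) : ℝ) ≤
      Real.exp (b * (T * Real.log (T + 2))) := by
    intro m
    rw [hb]
    exact fac_bound hDp hk hT (fun u => (m u : ℕ)) (fun u => by omega)
  refine ⟨fun m => P (fun u => (m u : ℕ)), ?_, ?_, ?_, ?_⟩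
  · intro m
    have h3 : (P (fun u => (m u : ℕ))).totalDegree ≤ Fintype.card (Psi q) * T := by
      refine (p1 _).trans ?_
      calc ∑ u, (m u : ℕ) ≤ ∑ _u : Psi q, T := Finset.sum_le_sum fun u _ => by omega
        _ = Fintype.card (Psi q) * T := by rw [Finset.sum_const, Finset.card_univ, smul_eq_mul]
    have h4 : ((P (fun u => (m u : ℕ))).totalDegree : ℝ) ≤ Fintype.card (Psi q) * T := by
      exact_mod_cast h3
    refine h4.trans (mul_le_mul_of_nonneg_right (by linarith) (by positivity))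
  · intro m k
    have h3 := p2 _ (fun x hx => GG_bound q L T (by positivity) (by positivity) b1 b2 hT hLT c hc
      x hx) (fun u => (m u : ℕ)) k
    refine h3.trans ?_
    rw [← ha]
    calc Real.exp (a * (T * Real.log (T + 2))) * _
        ≤ Real.exp (a * (T * Real.log (T + 2))) * Real.exp (b * (T * Real.log (T + 2))) :=
          mul_le_mul_of_nonneg_left (hfac m) (Real.exp_pos _).le
      _ = Real.exp ((a + b) * T * Real.log (T + 2)) := by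
          rw [← Real.exp_add]
          congr 1
          ring
  · intro U hU m
    have h3 := PS.bound (p3 (Sum.elim (fun u : Phi q 1 1 => rho q 1 1 u)
      (fun v : Phi q 1 3 => rho q 1 3 v))) (R := 1) (B := Real.exp (-U)) zero_le_one
      (fun z hz => hU z hz) (fun u => (m u : ℕ))
    rw [one_pow, mul_one, norm_div, norm_mul, norm_pow, Complex.norm_natCast, norm_prod] at h3
    simp only [Complex.norm_natCast] at h3
    have hDr : (0 : ℝ) < (D : ℝ) := by exact_mod_cast hDp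
    have hpos : (0 : ℝ) < (D : ℝ) ^ (∑ u, (m u : ℕ) +
        ((q - 1) / 2 * L + (q - 1) / 2 * L)) * ∏ u, (((m u : ℕ).factorial : ℕ) : ℝ) := by
      refine mul_pos (pow_pos hDr _) (Finset.prod_pos fun u _ => ?_)
      exact_mod_cast Nat.factorial_pos _
    rw [div_le_iff₀ hpos] at h3
    refine h3.trans ?_
    calc Real.exp (-U) * _ ≤ Real.exp (-U) * Real.exp (b * (T * Real.log (T + 2))) :=
          mul_le_mul_of_nonneg_left (hfac m) (Real.exp_pos _).le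
      _ = Real.exp (b * (T * Real.log (T + 2)) - U) := by
          rw [← Real.exp_add]
          congr 1
          ring
      _ ≤ Real.exp ((a + b) * T * Real.log (T + 2) - U) := by
          refine Real.exp_le_exp.2 ?_
          have : b * (T * Real.log (T + 2)) ≤ (a + b) * (T * Real.log (T + 2)) :=
            mul_le_mul_of_nonneg_right (by linarith) (by linarith)
          linarith
  · intro X Y hXY z j hj
    refine line_zero (p3 (Sum.elim X Y)) z j fun p hp => ?_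
    have h3 : ∀ u, p u < T + 1 := by
      intro u
      have : p u ≤ ∑ u, p u := Finset.single_le_sum (f := p) (fun _ _ => Nat.zero_le _)
        (Finset.mem_univ u)
      omega
    have h4 := hXY (fun u => ⟨p u, h3 u⟩)
    simp only at h4
    rw [h4, zero_div]

end Pool.Agent.Helper59.LT
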