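import Pool.Agent.Helper59.LT.Lat
import Pool.Agent.Helper4.LT.Mv

/-!
PROJECT LT, block G: form of the multipliers, vanishing of one coefficient; for general index sets.
-/

set_option autoImplicit false

namespace Pool.Agent.Helper59.LT

open Finset
open Pool.Agent.Helper34.LT

/-- lattice points -/
noncomputable def lamG (q : ℕ) (s : Finset ℕ) (r : ℕ → ℂ) (P : Polynomial ℤ) : s → ℂ :=
  fun u => r u * pt q s P u

theorem lamG_add (q : ℕ) (s : Finset ℕ) (r : ℕ → ℂ) (P Q : Polynomial ℤ) :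
    lamG q s r (P + Q) = lamG q s r P + lamG q s r Q := by
  funext u
  simp only [lamG, pt, map_add, Pi.add_apply, mul_add]

theorem lamG_mod (q n m : ℕ) (hq : q ≠ 0) (s : Finset ℕ) (r : ℕ → ℂ) (h : n ≡ m [MOD q])
    (P : Polynomial ℤ) :
    lamG q s r (Polynomial.X ^ n * P) = lamG q s r (Polynomial.X ^ m * P) := by
  funext u
  have h1 : (zt q ^ (u : ℕ)) ^ n = (zt q ^ (u : ℕ)) ^ m := by
    rw [← pow_mul, ← pow_mul]
    exact pow_eq_pow_of_modEq (h.mul_left _) (zt_pow q hq)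
  simp only [lamG, pt, map_mul, map_pow, Polynomial.aeval_X, h1]

/-- the form of the multipliers -/
theorem QP_gen (q : ℕ) (hq : q ≠ 0) (s : Finset ℕ) (r : ℕ → ℂ) (e : ℕ) (he : Nat.Coprime e q)
    (τ : (s → ℂ) → ℂ) (hd : Differentiable ℂ τ) (hne : ∃ z, τ z ≠ 0) (w : ℕ)
    (hsym : ∀ z : s → ℂ, τ (fun u => zt q ^ ((u : ℕ) * e) * z u) = zt q ^ w * τ z)
    (hper : ∀ P : Polynomial ℤ, ∃ (l : (s → ℂ) →ₗ[ℂ] ℂ) (c : ℂ), ∀ z,
      τ (z + lamG q s r P) = Complex.exp (l z + c) * τ z) :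
    ∃ (κ : s → ℂ) (c : Polynomial ℤ → ℂ), ∀ (P : Polynomial ℤ) (z : s → ℂ),
      τ (z + lamG q s r P) =
        Complex.exp (∑ u, κ u * (starRingEnd ℂ) (pt q _ P u) * z u + c P) * τ z := by
  classical
  choose l c hl using hper
  -- uniqueness
  have huniq : ∀ P P' : Polynomial ℤ, lamG q s r P = lamG q s r P' → l P = l P' := by
    intro P P' h
    refine (LTG.exp_unique hd hne (l P) (l P') (c P) (c P') fun z => ?_).1
    rw [← hl P z, ← hl P' z, h]
  have hadd : ∀ P Q : Polynomial ℤ, l (P + Q) = l P + l Q := by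
    intro P Q
    refine (LTG.exp_unique hd hne (l (P + Q)) (l P + l Q) (c (P + Q))
      (l P (lamG q s r Q) + c P + c Q) fun z => ?_).1
    have h1 : z + lamG q s r (P + Q) = (z + lamG q s r Q) + lamG q s r P := by
      rw [lamG_add]
      abel
    rw [← hl (P + Q) z, h1, hl P, hl Q, ← mul_assoc, ← Complex.exp_add]
    congr 2
    rw [map_add, LinearMap.add_apply]
    ring
  -- rotation
  obtain ⟨Dl, hDl⟩ : ∃ Dl : (s → ℂ) →ₗ[ℂ] (s → ℂ), ∀ z u,
      Dl z u = zt q ^ ((u : ℕ) * e) * z u := by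
    refine ⟨{ toFun := fun z u => zt q ^ ((u : ℕ) * e) * z u,
              map_add' := ?_, map_smul' := ?_ }, fun z u => rfl⟩
    · intro x y
      funext u
      simp only [Pi.add_apply, mul_add]
    · intro a x
      funext u
      simp only [Pi.smul_apply, smul_eq_mul, RingHom.id_apply]
      ring
  have hDlam : ∀ P : Polynomial ℤ, Dl (lamG q s r P) = lamG q s r (Polynomial.X ^ e * P) := by
    intro P
    funext u
    rw [hDl]
    simp only [lamG, pt, map_mul, map_pow, Polynomial.aeval_X]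
    rw [pow_mul]
    ring
  have hτD : ∀ z, τ (Dl z) = zt q ^ w * τ z := by
    intro z
    have h1 : Dl z = fun u : s => zt q ^ ((u : ℕ) * e) * z u := funext fun u => hDl z u
    rw [h1, hsym]
  have hrot : ∀ P : Polynomial ℤ, (l (Polynomial.X ^ e * P)).comp Dl = l P := by
    intro P
    refine (LTG.exp_unique hd hne _ (l P) (c (Polynomial.X ^ e * P)) (c P) fun z => ?_).1
    have h1 : τ (Dl (z + lamG q s r P)) = zt q ^ w * (Complex.exp (l P z + c P) * τ z) := by
      rw [hτD, hl]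
    have h2 : τ (Dl (z + lamG q s r P)) =
        Complex.exp (l (Polynomial.X ^ e * P) (Dl z) + c (Polynomial.X ^ e * P)) *
          (zt q ^ w * τ z) := by
      rw [map_add, hDlam, hl, hτD]
    rw [h1] at h2
    have h3 : zt q ^ w ≠ 0 := pow_ne_zero _ (zt_ne q)
    refine mul_left_cancel₀ h3 ?_
    rw [h2, LinearMap.comp_apply]
    ring
  -- coefficients
  obtain ⟨m, hm⟩ : ∃ m : Polynomial ℤ → s → ℂ, ∀ P u, m P u = l P (Pi.single u 1) :=
    ⟨fun P u => l P (Pi.single u 1), fun _ _ => rfl⟩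
  have hsum : ∀ P z, l P z = ∑ u, m P u * z u := by
    intro P z
    rw [LinearMap.pi_apply_eq_sum_univ (l P) z]
    refine Finset.sum_congr rfl fun u _ => ?_
    rw [hm, smul_eq_mul, mul_comm]
    congr 2
    funext v
    rw [Pi.single_apply]
    simp only [eq_comm]
  have hm1 : ∀ P u, m P u = zt q ^ ((u : ℕ) * e) * m (Polynomial.X ^ e * P) u := by
    intro P u
    rw [hm, hm, ← hrot P, LinearMap.comp_apply]
    have h1 : Dl (Pi.single u 1) = (zt q ^ ((u : ℕ) * e)) • (Pi.single u 1 : s → ℂ) := by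
      funext v
      rw [hDl, Pi.smul_apply, smul_eq_mul]
      by_cases hv : v = u
      · rw [hv]
      · rw [Pi.single_eq_of_ne hv, mul_zero, mul_zero]
    rw [h1, map_smul, smul_eq_mul]
  have hmk : ∀ (k : ℕ) P u, m P u = zt q ^ ((u : ℕ) * (e * k)) *
      m (Polynomial.X ^ (e * k) * P) u := by
    intro k
    induction k with
    | zero =>
      intro P u
      simp
    | succ k ih =>
      intro P u
      have h1 : (u : ℕ) * (e * (k + 1)) = (u : ℕ) * (e * k) + (u : ℕ) * e := by ring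
      have h2 : (Polynomial.X ^ (e * (k + 1)) * P : Polynomial ℤ) =
          Polynomial.X ^ e * (Polynomial.X ^ (e * k) * P) := by ring
      rw [ih P u, hm1 (Polynomial.X ^ (e * k) * P) u, h2, h1, pow_add (zt q), mul_assoc]
  have hmn : ∀ (n : ℕ) u, m (Polynomial.X ^ n) u =
      (starRingEnd ℂ) (zt q ^ ((u : ℕ) * n)) * m 1 u := by
    intro n u
    obtain ⟨k, hk⟩ : ∃ k : ℕ, e * k ≡ n [MOD q] := by
      have he' : ∃ e' : ℕ, e * e' ≡ 1 [MOD q] := by
        rcases Nat.lt_or_ge 1 q with h1 | h1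
        · obtain ⟨e', _, he'⟩ := Nat.exists_mul_mod_eq_one_of_coprime he h1
          refine ⟨e', ?_⟩
          unfold Nat.ModEq
          rw [he', Nat.mod_eq_of_lt h1]
        · have h2 : q = 1 := by omega
          exact ⟨0, by rw [h2]; exact Nat.modEq_one⟩
      obtain ⟨e', he'⟩ := he'
      refine ⟨e' * n, ?_⟩
      rw [← mul_assoc]
      have h1 : e * e' * n ≡ 1 * n [MOD q] := he'.mul_right n
      rwa [one_mul] at h1
    have h1 := hmk k 1 u
    have h2 : m (Polynomial.X ^ (e * k) * 1) u = m (Polynomial.X ^ n) u := by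
      rw [hm, hm, huniq (Polynomial.X ^ (e * k) * 1) (Polynomial.X ^ n)]
      rw [lamG_mod q _ _ hq s r hk, mul_one]
    have h3 : zt q ^ ((u : ℕ) * (e * k)) = zt q ^ ((u : ℕ) * n) :=
      pow_eq_pow_of_modEq (hk.mul_left _) (zt_pow q hq)
    rw [h2, h3] at h1
    rw [h1, ← mul_assoc, map_pow, zt_conj q hq, inv_pow,
      inv_mul_cancel₀ (pow_ne_zero _ (zt_ne q)), one_mul]
  have hmadd : ∀ P Q u, m (P + Q) u = m P u + m Q u := by
    intro P Q u
    rw [hm, hm, hm, hadd, LinearMap.add_apply]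
  have hm0 : ∀ u, m 0 u = 0 := by
    intro u
    have h1 := hmadd 0 0 u
    rw [add_zero] at h1
    exact left_eq_add.1 h1
  have hmz : ∀ (a : ℤ) P u, m (Polynomial.C a * P) u = a * m P u := by
    intro a P u
    obtain ⟨φ, hφ⟩ : ∃ φ : Polynomial ℤ →+ ℂ, ∀ P, φ P = m P u :=
      ⟨{ toFun := fun P => m P u, map_zero' := hm0 u, map_add' := fun P Q => hmadd P Q u },
        fun P => rfl⟩
    rw [← hφ, ← hφ, ← Polynomial.smul_eq_C_mul, map_zsmul, zsmul_eq_mul]
  have hmP : ∀ P u, m P u = m 1 u * (starRingEnd ℂ) (pt q s P u) := by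
    intro P u
    induction P using Polynomial.induction_on' with
    | add P Q hP hQ =>
      rw [hmadd, hP, hQ]
      simp only [pt, map_add, mul_add]
    | monomial n a =>
      rw [← Polynomial.C_mul_X_pow_eq_monomial, hmz, hmn]
      simp only [pt, map_mul, map_pow, Polynomial.aeval_X, Polynomial.aeval_C]
      rw [pow_mul]
      have h1 : (starRingEnd ℂ) ((algebraMap ℤ ℂ) a) = (a : ℂ) := by simp
      rw [h1]
      ring
  refine ⟨m 1, c, fun P z => ?_⟩
  rw [hl, hsum]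
  congr 3
  refine Finset.sum_congr rfl fun u _ => ?_
  rw [hmP P u]

/-- integrality of the pairing -/
theorem pairing_gen (q : ℕ) (s : Finset ℕ) (r : ℕ → ℂ) (κ : s → ℂ) (c : Polynomial ℤ → ℂ)
    (F : (s → ℂ) → ℂ) (hne : ∃ z, F z ≠ 0)
    (h : ∀ (P : Polynomial ℤ) (z : s → ℂ), F (z + lamG q s r P) =
        Complex.exp (∑ u, κ u * (starRingEnd ℂ) (pt q _ P u) * z u + c P) * F z)
    (P Q : Polynomial ℤ) :
    ∃ n : ℤ, ∑ u, κ u * r u *
      ((starRingEnd ℂ) (pt q _ P u) * pt q _ Q u - (starRingEnd ℂ) (pt q _ Q u) * pt q _ P u) =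
        n * (2 * Real.pi * Complex.I) := by
  obtain ⟨z, hz⟩ := hne
  have h1 : F ((z + lamG q s r Q) + lamG q s r P) = F ((z + lamG q s r P) + lamG q s r Q) := by
    congr 1
    abel
  rw [h P, h Q, h Q, h P, ← mul_assoc, ← mul_assoc, ← Complex.exp_add, ← Complex.exp_add] at h1
  have h2 := mul_right_cancel₀ hz h1
  rw [Complex.exp_eq_exp_iff_exists_int] at h2
  obtain ⟨n, hn⟩ := h2
  refine ⟨n, ?_⟩
  have e1 : ∀ (A B : Polynomial ℤ),
      ∑ u, κ u * (starRingEnd ℂ) (pt q s A u) * (z + lamG q s r B) u =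
        ∑ u, κ u * (starRingEnd ℂ) (pt q s A u) * z u +
          ∑ u : s, κ u * r u * ((starRingEnd ℂ) (pt q s A u) * pt q s B u) := by
    intro A B
    rw [← Finset.sum_add_distrib]
    refine Finset.sum_congr rfl fun u _ => ?_
    rw [Pi.add_apply]
    unfold lamG
    ring
  rw [e1, e1] at hn
  have e2 : ∑ u : s, κ u * r u *
      ((starRingEnd ℂ) (pt q s P u) * pt q s Q u - (starRingEnd ℂ) (pt q s Q u) * pt q s P u) =
      ∑ u : s, κ u * r u * ((starRingEnd ℂ) (pt q s P u) * pt q s Q u) -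
      ∑ u : s, κ u * r u * ((starRingEnd ℂ) (pt q s Q u) * pt q s P u) := by
    rw [← Finset.sum_sub_distrib]
    exact Finset.sum_congr rfl fun u _ => by ring
  rw [e2]
  linear_combination hn

theorem zt_orth3 (q u v : ℕ) (hq : q ≠ 0) (hu : 1 ≤ u) (hu' : u < q) (hv : 1 ≤ v)
    (hv' : v < q) (huv : u + v ≠ q) :
    ∑ i ∈ range q, ((zt q ^ v)⁻¹) ^ i * ((zt q ^ u)⁻¹) ^ i = 0 := by
  have h1 := congrArg (starRingEnd ℂ) (zt_orth2 q u v hq hu hu' hv hv' huv)
  rw [map_sum, map_zero] at h1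
  rw [← h1]
  refine Finset.sum_congr rfl fun i _ => ?_
  rw [map_mul, map_pow, map_pow, map_pow, map_pow, zt_conj q hq, inv_pow (zt q) v,
    inv_pow (zt q) u]

/-- one coefficient zero, all zero -/
theorem zero_gen (q : ℕ) (hq : 2 ≤ q) (s : Finset ℕ) (hs : ∀ u ∈ s, 1 ≤ u ∧ u < q)
    (hs1 : ∀ u ∈ s, Nat.Coprime u q) (hs2 : ∀ u ∈ s, q - u ∉ s) (r : ℕ → ℂ)
    (hr : ∀ u ∈ s, r u ≠ 0) (κ : s → ℂ) (c : Polynomial ℤ → ℂ)
    (F : (s → ℂ) → ℂ) (hne : ∃ z, F z ≠ 0)
    (h : ∀ (P : Polynomial ℤ) (z : s → ℂ), F (z + lamG q s r P) =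
        Complex.exp (∑ u, κ u * (starRingEnd ℂ) (pt q _ P u) * z u + c P) * F z)
    (u0 : s) (h0 : κ u0 = 0) : κ = 0 := by
  classical
  have hq0 : q ≠ 0 := by omega
  have hqc : (q : ℂ) ≠ 0 := Nat.cast_ne_zero.2 hq0
  have hpi : (2 * (Real.pi : ℂ) * Complex.I) ≠ 0 := Complex.two_pi_I_ne_zero
  have hE : ∀ n : ℕ, ∃ e : ℤ, ∑ u : s, κ u * r u *
      ((zt q ^ (u : ℕ)) ^ n - ((zt q ^ (u : ℕ))⁻¹) ^ n) = e * (2 * Real.pi * Complex.I) := by
    intro n
    obtain ⟨e, he⟩ := pairing_gen q s r κ c F hne h 1 (Polynomial.X ^ n)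
    refine ⟨e, ?_⟩
    rw [← he]
    refine Finset.sum_congr rfl fun u _ => ?_
    simp only [pt, map_pow, Polynomial.aeval_X, map_one, one_mul, mul_one]
    rw [zt_conj q hq0, inv_pow (zt q)]
  choose e he using hE
  have key : ∀ v : s, Polynomial.aeval ((zt q ^ (v : ℕ))⁻¹)
      (∑ n ∈ range q, Polynomial.C (e n) * Polynomial.X ^ n) * (2 * Real.pi * Complex.I) =
      q * (κ v * r v) := by
    intro v
    obtain ⟨v1, v2⟩ := hs v v.2
    rw [map_sum, Finset.sum_mul]
    have e1 : ∀ n ∈ range q, Polynomial.aeval ((zt q ^ (v : ℕ))⁻¹)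
        (Polynomial.C (e n) * Polynomial.X ^ n) * (2 * Real.pi * Complex.I) =
        ∑ u : s, κ u * r u * (((zt q ^ (u : ℕ)) ^ n * ((zt q ^ (v : ℕ))⁻¹) ^ n) -
          ((zt q ^ (u : ℕ))⁻¹) ^ n * ((zt q ^ (v : ℕ))⁻¹) ^ n) := by
      intro n _
      rw [map_mul, map_pow, Polynomial.aeval_X, Polynomial.aeval_C]
      have h3 : (algebraMap ℤ ℂ) (e n) = (e n : ℂ) := rfl
      rw [h3]
      have h4 : (e n : ℂ) * ((zt q ^ (v : ℕ))⁻¹) ^ n * (2 * Real.pi * Complex.I) =
          (e n * (2 * Real.pi * Complex.I)) * ((zt q ^ (v : ℕ))⁻¹) ^ n := by ring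
      rw [h4, ← he n, Finset.sum_mul]
      refine Finset.sum_congr rfl fun u _ => ?_
      ring
    rw [Finset.sum_congr rfl e1, Finset.sum_comm]
    have e2 : ∀ u : s, ∑ n ∈ range q, κ u * r u *
        (((zt q ^ (u : ℕ)) ^ n * ((zt q ^ (v : ℕ))⁻¹) ^ n) -
          ((zt q ^ (u : ℕ))⁻¹) ^ n * ((zt q ^ (v : ℕ))⁻¹) ^ n) =
        if u = v then q * (κ v * r v) else 0 := by
      intro u
      obtain ⟨u1, u2⟩ := hs u u.2
      rw [← Finset.mul_sum, Finset.sum_sub_distrib, zt_orth q v u hq0 v2 u2,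
        zt_orth3 q v u hq0 v1 v2 u1 u2 (by
          intro h3
          apply hs2 v v.2
          have : q - (v : ℕ) = u := by omega
          rw [this]
          exact u.2), sub_zero]
      by_cases huv : u = v
      · rw [if_pos huv, if_pos (by rw [huv]), huv]
        ring
      · rw [if_neg huv, if_neg (fun h' => huv (Subtype.ext h').symm), mul_zero]
    rw [Finset.sum_congr rfl fun u _ => e2 u, Finset.sum_ite_eq' univ v,
      if_pos (Finset.mem_univ v)]
  have hprim : ∀ v : s, IsPrimitiveRoot ((zt q ^ (v : ℕ))⁻¹) q := fun v =>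
    ((zt_prim q hq0).pow_of_coprime v (hs1 v v.2)).inv
  have k0 := key u0
  rw [h0, zero_mul, mul_zero] at k0
  have k1 := (mul_eq_zero.1 k0).resolve_right hpi
  have hdvd : Polynomial.cyclotomic q ℤ ∣
      ∑ n ∈ range q, Polynomial.C (e n) * Polynomial.X ^ n := by
    rw [Polynomial.cyclotomic_eq_minpoly (hprim u0) (by omega)]
    exact minpoly.isIntegrallyClosed_dvd ((hprim u0).isIntegral (by omega)) k1
  funext v
  have k2 : Polynomial.aeval ((zt q ^ (v : ℕ))⁻¹)
      (∑ n ∈ range q, Polynomial.C (e n) * Polynomial.X ^ n) = 0 := by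
    obtain ⟨R, hR⟩ := hdvd
    rw [hR, map_mul]
    have h7 := IsPrimitiveRoot.isRoot_cyclotomic (R := ℂ) (by omega : 0 < q) (hprim v)
    rw [Polynomial.IsRoot.def, ← Polynomial.map_cyclotomic_int, Polynomial.eval_map] at h7
    have h8 : Polynomial.aeval ((zt q ^ (v : ℕ))⁻¹) (Polynomial.cyclotomic q ℤ) = 0 := h7
    rw [h8, zero_mul]
  have k3 := key v
  rw [k2, zero_mul] at k3
  have k4 := (mul_eq_zero.1 k3.symm).resolve_left hqc
  exact (mul_eq_zero.1 k4).resolve_right (hr v v.2)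

end Pool.Agent.Helper59.LT
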