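import Pool.Agent.Helper59.LT.PolC
import Pool.Agent.Helper59.LT.Lat

/-!
PROJECT LT, part A5: the zero estimate for the slopes, from `Z_main`, `subtori`, `mem_Phi_sub`,
`rho_ne` (given as hypotheses).
-/

set_option autoImplicit false

namespace Pool.Agent.Helper59.LT

open Finset
open Pool.Agent.Helper34.LT

/-- statement of `Z_main` -/
def ZMain : Prop :=
  ∀ {ι A : Type} [Fintype ι] [AddCommGroup A] (γ : A →+ (ι → ℂ))
    (l : A →+ ((ι → ℂ) →ₗ[ℂ] ℂ)) (c : A → ℂ)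
    (_hd : ∃ ε : ℝ, 0 < ε ∧ ∀ a, ‖γ a‖ < ε → γ a = 0)
    (_hc : ∃ R : ℝ, ∀ z, ∃ a, ‖z - γ a‖ ≤ R)
    (_hb : ∀ p, ∃ F, Theta γ l c 1 F ∧ F p ≠ 0),
    ∃ C : ℝ, 0 < C ∧ ∀ V : Submodule ℂ (ι → ℂ),
      (∀ H : Submodule ℂ (ι → ℂ), H ≠ ⊥ →
        (∀ x ∈ H, x ∈ Submodule.span ℝ {y : ι → ℂ | y ∈ H ∧ ∃ a, y = γ a}) → V ⊔ H = ⊤) →
      ∀ L : ℕ, 1 ≤ L → ∀ F, Theta γ l c L F → (∃ z, F z ≠ 0) → ∀ T : ℕ,
        (∀ v ∈ V, ∀ j ≤ Fintype.card ι * T, iteratedDeriv j (fun s : ℂ => F (s • v)) 0 = 0) →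
        (T : ℝ) ^ (Module.finrank ℂ V) ≤ C * (L : ℝ) ^ (Fintype.card ι)

/-- statement of `subtori` -/
def SubT (q : ℕ) : Prop :=
  ∀ (ρ1 : Phi q 1 1 → ℂ) (ρ2 : Phi q 1 3 → ℂ)
    (_h1 : ∀ u, ρ1 u ≠ 0) (_h2 : ∀ u, ρ2 u ≠ 0)
    (H : Submodule ℂ (Phi q 1 1 ⊕ Phi q 1 3 → ℂ)) (_hH : H ≠ ⊥)
    (_hr : ∀ x ∈ H, x ∈ Submodule.span ℝ {y : Phi q 1 1 ⊕ Phi q 1 3 → ℂ | y ∈ H ∧
      ∃ P Q : Polynomial ℤ,
        y = Sum.elim (fun u => ρ1 u * pt q _ P u) (fun u => ρ2 u * pt q _ Q u)}),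
    (∀ x : Phi q 1 1 ⊕ Phi q 1 3 → ℂ, (∀ v, x (Sum.inr v) = 0) → x ∈ H) ∨
      (∀ x : Phi q 1 1 ⊕ Phi q 1 3 → ℂ, (∀ v, x (Sum.inl v) = 0) → x ∈ H)

theorem pt_add (q : ℕ) (s : Finset ℕ) (P Q : Polynomial ℤ) (u : s) :
    pt q s (P + Q) u = pt q s P u + pt q s Q u := by
  unfold pt
  rw [map_add]

theorem pt_zero (q : ℕ) (s : Finset ℕ) (u : s) : pt q s 0 u = 0 := by
  unfold pt
  rw [map_zero]

/-- the lattice map -/
noncomputable def gam (q : ℕ) :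
    Polynomial ℤ × Polynomial ℤ →+ (Phi q 1 1 ⊕ Phi q 1 3 → ℂ) where
  toFun a := Sum.elim (lam q 1 1 a.1) (lam q 1 3 a.2)
  map_zero' := by
    funext i
    rcases i with u | v
    · change lam q 1 1 0 u = 0
      unfold lam
      rw [pt_zero, mul_zero]
    · change lam q 1 3 0 v = 0
      unfold lam
      rw [pt_zero, mul_zero]
  map_add' a b := by
    funext i
    rcases i with u | v
    · change lam q 1 1 (a.1 + b.1) u = lam q 1 1 a.1 u + lam q 1 1 b.1 u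
      unfold lam
      rw [pt_add, mul_add]
    · change lam q 1 3 (a.2 + b.2) v = lam q 1 3 a.2 v + lam q 1 3 b.2 v
      unfold lam
      rw [pt_add, mul_add]

/-- the linear forms -/
noncomputable def lin (q : ℕ) (κ1 : Phi q 1 1 → ℂ) (κ2 : Phi q 1 3 → ℂ) :
    Polynomial ℤ × Polynomial ℤ →+ ((Phi q 1 1 ⊕ Phi q 1 3 → ℂ) →ₗ[ℂ] ℂ) where
  toFun a := (((q - 1) / 2 : ℕ) : ℂ) •
    (∑ u, (κ1 u * (starRingEnd ℂ) (pt q _ a.1 u)) • LinearMap.proj (Sum.inl u) +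
      ∑ v, (κ2 v * (starRingEnd ℂ) (pt q _ a.2 v)) • LinearMap.proj (Sum.inr v))
  map_zero' := by
    ext x
    simp [pt_zero]
  map_add' a b := by
    apply LinearMap.ext
    intro x
    simp only [Prod.fst_add, Prod.snd_add, pt_add, map_add, LinearMap.smul_apply,
      LinearMap.add_apply, LinearMap.sum_apply, LinearMap.proj_apply, smul_eq_mul, mul_add,
      add_mul, Finset.sum_add_distrib]
    ring

theorem lin_apply (q : ℕ) (κ1 : Phi q 1 1 → ℂ) (κ2 : Phi q 1 3 → ℂ)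
    (a : Polynomial ℤ × Polynomial ℤ) (x : Phi q 1 1 ⊕ Phi q 1 3 → ℂ) :
    lin q κ1 κ2 a x = (((q - 1) / 2 : ℕ) : ℂ) *
      (∑ u, κ1 u * (starRingEnd ℂ) (pt q _ a.1 u) * x (Sum.inl u) +
      ∑ v, κ2 v * (starRingEnd ℂ) (pt q _ a.2 v) * x (Sum.inr v)) := by
  change ((((q - 1) / 2 : ℕ) : ℂ) •
    (∑ u, (κ1 u * (starRingEnd ℂ) (pt q _ a.1 u)) • LinearMap.proj (Sum.inl u) +
      ∑ v, (κ2 v * (starRingEnd ℂ) (pt q _ a.2 v)) • LinearMap.proj (Sum.inr v)) :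
        (Phi q 1 1 ⊕ Phi q 1 3 → ℂ) →ₗ[ℂ] ℂ) x = _
  simp only [LinearMap.smul_apply,
      LinearMap.add_apply, LinearMap.sum_apply, LinearMap.proj_apply, smul_eq_mul]

/-- constants -/
noncomputable def cst (q : ℕ) (c1 c2 : Polynomial ℤ → ℂ) (a : Polynomial ℤ × Polynomial ℤ) : ℂ :=
  (((q - 1) / 2 : ℕ) : ℂ) * (c1 a.1 + c2 a.2)

theorem mon_qp (q a b : ℕ) (κ : Phi q a b → ℂ) (c : Polynomial ℤ → ℂ) (n L : ℕ)
    {f0 : (Phi q a b → ℂ) → ℂ} {f : Fin n → (Phi q a b → ℂ) → ℂ}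
    (h0 : QP q a b κ c f0) (h : ∀ i, QP q a b κ c (f i)) (e : Fin n → Fin (L + 1))
    (P : Polynomial ℤ) (z : Phi q a b → ℂ) :
    mon n L f0 f e (z + lam q a b P) =
      Complex.exp ((n * L : ℕ) * (∑ u, κ u * (starRingEnd ℂ) (pt q _ P u) * z u + c P)) *
        mon n L f0 f e z := by
  have h4 : ∑ i, (e i : ℕ) ≤ n * L := by
    calc ∑ i, (e i : ℕ) ≤ ∑ _i : Fin n, L := Finset.sum_le_sum fun i _ => by omega
      _ = n * L := by rw [Finset.sum_const, Finset.card_univ, Fintype.card_fin, smul_eq_mul]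
  obtain ⟨E, hE⟩ : ∃ E, E = Complex.exp
    (∑ u, κ u * (starRingEnd ℂ) (pt q _ P u) * z u + c P) := ⟨_, rfl⟩
  unfold mon
  rw [h0 P z, Complex.exp_nat_mul, ← hE]
  have h5 : ∀ i, f i (z + lam q a b P) = E * f i z := fun i => by rw [h i P z, hE]
  simp_rw [h5, mul_pow]
  rw [Finset.prod_mul_distrib, Finset.prod_pow_eq_pow_sum]
  have h6 : E ^ (n * L) = E ^ (n * L - ∑ i, (e i : ℕ)) * E ^ (∑ i, (e i : ℕ)) := by
    rw [← pow_add]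
    congr 1
    omega
  rw [h6]
  ring

theorem mon_diff {I : Type} [Fintype I] (n L : ℕ)
    {f0 : (I → ℂ) → ℂ} {f : Fin n → (I → ℂ) → ℂ}
    (h0 : Differentiable ℂ f0) (h : ∀ i, Differentiable ℂ (f i)) (e : Fin n → Fin (L + 1)) :
    Differentiable ℂ (mon n L f0 f e) := by
  have h1 : Differentiable ℂ (fun z => ∏ i, f i z ^ (e i : ℕ)) := by
    have : ∀ s : Finset (Fin n), Differentiable ℂ (fun z => ∏ i ∈ s, f i z ^ (e i : ℕ)) := by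
      classical
      intro s
      induction s using Finset.induction_on with
      | empty => simp
      | insert a s ha ih =>
        simp_rw [Finset.prod_insert ha]
        exact ((h a).pow _).mul ih
    exact this univ
  exact (h0.pow _).mul h1

theorem GG_theta (q L : ℕ) {κ1 : Phi q 1 1 → ℂ} {c1 : Polynomial ℤ → ℂ}
    {f0 : (Phi q 1 1 → ℂ) → ℂ} {f : Fin ((q - 1) / 2) → (Phi q 1 1 → ℂ) → ℂ}
    (h1 : IsSys q 1 1 κ1 c1 f0 f)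
    {κ2 : Phi q 1 3 → ℂ} {c2 : Polynomial ℤ → ℂ}
    {g0 : (Phi q 1 3 → ℂ) → ℂ} {g : Fin ((q - 1) / 2) → (Phi q 1 3 → ℂ) → ℂ}
    (h2 : IsSys q 1 3 κ2 c2 g0 g) (c : Ex q L × Ex q L → ℂ) :
    Theta (gam q) (lin q κ1 κ2) (cst q c1 c2) L (GG q L f0 f g0 g c) := by
  constructor
  · unfold GG
    have hl : Differentiable ℂ (fun x : Phi q 1 1 ⊕ Phi q 1 3 → ℂ => fun u => x (Sum.inl u)) :=
      differentiable_pi.2 fun u => differentiable_apply _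
    have hr : Differentiable ℂ (fun x : Phi q 1 1 ⊕ Phi q 1 3 → ℂ => fun u => x (Sum.inr u)) :=
      differentiable_pi.2 fun u => differentiable_apply _
    refine Differentiable.fun_sum fun e _ => ?_
    exact (((mon_diff _ L h1.diff0 h1.diff e.1).comp hl).const_mul (c e)).mul
      ((mon_diff _ L h2.diff0 h2.diff e.2).comp hr)
  · intro a z
    unfold GG
    rw [Finset.mul_sum]
    refine Finset.sum_congr rfl fun e _ => ?_
    have e1 : (fun u => (z + gam q a) (Sum.inl u)) = (fun u => z (Sum.inl u)) + lam q 1 1 a.1 :=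
      rfl
    have e2 : (fun u => (z + gam q a) (Sum.inr u)) = (fun u => z (Sum.inr u)) + lam q 1 3 a.2 :=
      rfl
    rw [e1, e2, mon_qp q 1 1 κ1 c1 _ L h1.qp0 h1.qp, mon_qp q 1 3 κ2 c2 _ L h2.qp0 h2.qp,
      lin_apply]
    unfold cst
    have e3 : (L : ℂ) * ((((q - 1) / 2 : ℕ) : ℂ) *
        (∑ u, κ1 u * (starRingEnd ℂ) (pt q _ a.1 u) * z (Sum.inl u) +
          ∑ v, κ2 v * (starRingEnd ℂ) (pt q _ a.2 v) * z (Sum.inr v)) +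
        (((q - 1) / 2 : ℕ) : ℂ) * (c1 a.1 + c2 a.2)) =
        (((q - 1) / 2 * L : ℕ) : ℂ) *
          (∑ u, κ1 u * (starRingEnd ℂ) (pt q _ a.1 u) * z (Sum.inl u) + c1 a.1) +
        (((q - 1) / 2 * L : ℕ) : ℂ) *
          (∑ v, κ2 v * (starRingEnd ℂ) (pt q _ a.2 v) * z (Sum.inr v) + c2 a.2) := by
      rw [Nat.cast_mul]
      ring
    rw [e3, Complex.exp_add]
    ring

theorem GG_ne (q L : ℕ) {κ1 : Phi q 1 1 → ℂ} {c1 : Polynomial ℤ → ℂ}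
    {f0 : (Phi q 1 1 → ℂ) → ℂ} {f : Fin ((q - 1) / 2) → (Phi q 1 1 → ℂ) → ℂ}
    (h1 : IsSys q 1 1 κ1 c1 f0 f)
    {κ2 : Phi q 1 3 → ℂ} {c2 : Polynomial ℤ → ℂ}
    {g0 : (Phi q 1 3 → ℂ) → ℂ} {g : Fin ((q - 1) / 2) → (Phi q 1 3 → ℂ) → ℂ}
    (h2 : IsSys q 1 3 κ2 c2 g0 g) (c : Ex q L × Ex q L → ℂ) (hc : c ≠ 0) :
    ∃ x, GG q L f0 f g0 g c x ≠ 0 := by
  by_contra hcon
  push Not at hcon
  apply hc
  have l1 := Fintype.linearIndependent_iff.1 (h1.indep L)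
  have l2 := Fintype.linearIndependent_iff.1 (h2.indep L)
  have k1 : ∀ (y : Phi q 1 3 → ℂ) (e : Ex q L),
      ∑ e' : Ex q L, c (e, e') * mon ((q - 1) / 2) L g0 g e' y = 0 := by
    intro y
    refine l1 (fun e => ∑ e' : Ex q L, c (e, e') * mon ((q - 1) / 2) L g0 g e' y) ?_
    funext x
    have h3 := hcon (Sum.elim x y)
    unfold GG at h3
    rw [Fintype.sum_prod_type] at h3
    rw [Finset.sum_apply, Pi.zero_apply, ← h3]
    refine Finset.sum_congr rfl fun e _ => ?_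
    rw [Pi.smul_apply, smul_eq_mul, Finset.sum_mul]
    refine Finset.sum_congr rfl fun e' _ => ?_
    change c (e, e') * mon ((q - 1) / 2) L g0 g e' y * mon ((q - 1) / 2) L f0 f e x =
      c (e, e') * mon ((q - 1) / 2) L f0 f e x * mon ((q - 1) / 2) L g0 g e' y
    ring
  funext e
  have k2 := l2 (fun e' => c (e.1, e')) (by
    funext y
    rw [Finset.sum_apply, Pi.zero_apply, ← k1 y e.1]
    exact Finset.sum_congr rfl fun e' _ => rfl) e.2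
  exact k2

/-- the graph -/
noncomputable def grf (q : ℕ) (W : Phi q 1 1 ⊕ Phi q 1 3 → ℂ) :
    (Psi q → ℂ) →ₗ[ℂ] (Phi q 1 1 ⊕ Phi q 1 3 → ℂ) where
  toFun z i := W i * z (piK q i)
  map_add' x y := by
    funext i
    simp only [Pi.add_apply, mul_add]
  map_smul' r x := by
    funext i
    simp only [Pi.smul_apply, smul_eq_mul, RingHom.id_apply]
    ring

theorem piK_surj (q : ℕ) (u : Psi q) : ∃ i, piK q i = u := by
  rcases Finset.mem_union.1 u.2 with h | h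
  · exact ⟨Sum.inl ⟨u, h⟩, rfl⟩
  · exact ⟨Sum.inr ⟨u, h⟩, rfl⟩

theorem grf_inj (q : ℕ) (W : Phi q 1 1 ⊕ Phi q 1 3 → ℂ) (hW : ∀ i, W i ≠ 0) :
    Function.Injective (grf q W) := by
  intro x y h
  funext u
  obtain ⟨i, hi⟩ := piK_surj q u
  have h1 := congrFun h i
  change W i * x (piK q i) = W i * y (piK q i) at h1
  rw [hi] at h1
  exact mul_left_cancel₀ (hW i) h1

theorem grf_rank (q : ℕ) (W : Phi q 1 1 ⊕ Phi q 1 3 → ℂ) (hW : ∀ i, W i ≠ 0) :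
    Module.finrank ℂ (LinearMap.range (grf q W)) = (Psi q).card := by
  rw [LinearMap.finrank_range_of_inj (grf_inj q W hW), Module.finrank_fintype_fun_eq_card,
    Fintype.card_coe]

theorem grf_sup (q : ℕ) (X : Phi q 1 1 → ℂ) (Y : Phi q 1 3 → ℂ) (hX : ∀ u, X u ≠ 0)
    (hY : ∀ v, Y v ≠ 0) (H : Submodule ℂ (Phi q 1 1 ⊕ Phi q 1 3 → ℂ))
    (h : (∀ x : Phi q 1 1 ⊕ Phi q 1 3 → ℂ, (∀ v, x (Sum.inr v) = 0) → x ∈ H) ∨
      (∀ x : Phi q 1 1 ⊕ Phi q 1 3 → ℂ, (∀ v, x (Sum.inl v) = 0) → x ∈ H)) :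
    LinearMap.range (grf q (Sum.elim X Y)) ⊔ H = ⊤ := by
  classical
  rw [eq_top_iff]
  intro x _
  rcases h with h | h
  · obtain ⟨z, hz⟩ : ∃ z : Psi q → ℂ, ∀ v : Phi q 1 3, Y v * z (piK q (Sum.inr v)) =
        x (Sum.inr v) := by
      refine ⟨fun u => if hu : (u : ℕ) ∈ Phi q 1 3 then (Y ⟨u, hu⟩)⁻¹ * x (Sum.inr ⟨u, hu⟩)
        else 0, fun v => ?_⟩
      have hv : ((piK q (Sum.inr v) : Psi q) : ℕ) ∈ Phi q 1 3 := v.2
      beta_reduce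
      rw [dif_pos hv]
      exact mul_inv_cancel_left₀ (hY v) _
    have h1 : x = grf q (Sum.elim X Y) z + (x - grf q (Sum.elim X Y) z) := by abel
    rw [h1]
    refine Submodule.add_mem_sup ⟨z, rfl⟩ (h _ fun v => ?_)
    change x (Sum.inr v) - Y v * z (piK q (Sum.inr v)) = 0
    rw [hz v, sub_self]
  · obtain ⟨z, hz⟩ : ∃ z : Psi q → ℂ, ∀ v : Phi q 1 1, X v * z (piK q (Sum.inl v)) =
        x (Sum.inl v) := by
      refine ⟨fun u => if hu : (u : ℕ) ∈ Phi q 1 1 then (X ⟨u, hu⟩)⁻¹ * x (Sum.inl ⟨u, hu⟩)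
        else 0, fun v => ?_⟩
      have hv : ((piK q (Sum.inl v) : Psi q) : ℕ) ∈ Phi q 1 1 := v.2
      beta_reduce
      rw [dif_pos hv]
      exact mul_inv_cancel_left₀ (hX v) _
    have h1 : x = grf q (Sum.elim X Y) z + (x - grf q (Sum.elim X Y) z) := by abel
    rw [h1]
    refine Submodule.add_mem_sup ⟨z, rfl⟩ (h _ fun v => ?_)
    change x (Sum.inl v) - X v * z (piK q (Sum.inl v)) = 0
    rw [hz v, sub_self]

theorem gam_disc (q : ℕ) (hq : q ≠ 0)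
    (hm1 : ∀ u, 1 ≤ u → u < q → (u ∈ Phi q 1 1 ↔ q - u ∉ Phi q 1 1))
    (hm3 : ∀ u, 1 ≤ u → u < q → (u ∈ Phi q 1 3 ↔ q - u ∉ Phi q 1 3))
    (hr1 : ∀ u ∈ Phi q 1 1, rho q 1 1 u ≠ 0) (hr3 : ∀ u ∈ Phi q 1 3, rho q 1 3 u ≠ 0) :
    ∃ ε : ℝ, 0 < ε ∧ ∀ a, ‖gam q a‖ < ε → gam q a = 0 := by
  classical
  -- one factor
  have one : ∀ (s : Finset ℕ) (r : ℕ → ℂ) (_hs : ∀ u, 1 ≤ u → u < q → (u ∈ s ↔ q - u ∉ s))
      (_hs2 : ∀ u ∈ s, 1 ≤ u ∧ u < q) (_hr : ∀ u ∈ s, r u ≠ 0),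
      ∃ ε : ℝ, 0 < ε ∧ ∀ P : Polynomial ℤ, (∀ u : s, ‖r u * pt q s P u‖ < ε) →
        ∀ u : s, pt q s P u = 0 := by
    intro s r hs hs2 hr
    obtain ⟨m, hm0, hm⟩ : ∃ m : ℝ, 0 < m ∧ ∀ u : s, m ≤ ‖r u‖ := by
      rcases isEmpty_or_nonempty s with hE | hE
      · exact ⟨1, one_pos, fun u => (hE.false u).elim⟩
      · obtain ⟨u0, hu0⟩ := Finite.exists_min (fun u : s => ‖r u‖)
        exact ⟨‖r u0‖, norm_pos_iff.2 (hr u0 u0.2), hu0⟩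
    refine ⟨m / 2, by positivity, fun P hP => ?_⟩
    have h1 : ∀ u : s, ‖pt q s P u‖ < 1 / 2 := by
      intro u
      have h2 := hP u
      rw [norm_mul] at h2
      have h3 := hm u
      by_contra hcon
      rw [not_lt] at hcon
      nlinarith [norm_nonneg (pt q s P u)]
    have h2 : ∀ u, 1 ≤ u → u < q → ‖Polynomial.aeval (zt q ^ u) P‖ < 1 / 2 := by
      intro u hu1 hu2
      by_cases hu : u ∈ s
      · exact h1 ⟨u, hu⟩
      · have hu3 : q - u ∈ s := by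
          by_contra h4
          exact hu ((hs u hu1 hu2).2 h4)
        have h5 := h1 ⟨q - u, hu3⟩
        have h6 : Polynomial.aeval (zt q ^ u) P =
            (starRingEnd ℂ) (Polynomial.aeval (zt q ^ (q - u)) P) := by
          have h7 : zt q ^ u = (starRingEnd ℂ) (zt q ^ (q - u)) := by
            rw [map_pow, zt_conj q hq, inv_pow]
            refine eq_inv_of_mul_eq_one_left ?_
            rw [← pow_add]
            have : u + (q - u) = q := by omega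
            rw [this, zt_pow q hq]
          rw [h7]
          rw [Polynomial.aeval_def, Polynomial.aeval_def, Polynomial.eval₂_eq_sum_range,
            Polynomial.eval₂_eq_sum_range, map_sum]
          refine Finset.sum_congr rfl fun i _ => ?_
          have h8 : (starRingEnd ℂ) (algebraMap ℤ ℂ (P.coeff i)) = algebraMap ℤ ℂ (P.coeff i) := by
            simp
          rw [map_mul, h8, map_pow (starRingEnd ℂ) (zt q ^ (q - u)) i]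
        rw [h6, RCLike.norm_conj]
        exact h5
    intro u
    obtain ⟨u1, u2⟩ := hs2 u u.2
    exact disc q hq P h2 u u1 u2
  have hp1 : ∀ a b : ℕ, ∀ u ∈ Phi q a b, 1 ≤ u ∧ u < q := by
    intro a b u hu
    unfold Phi at hu
    rw [Finset.mem_filter, Finset.mem_Icc] at hu
    omega
  obtain ⟨ε1, he1, k1⟩ := one (Phi q 1 1) (rho q 1 1) hm1 (hp1 1 1) hr1
  obtain ⟨ε3, he3, k3⟩ := one (Phi q 1 3) (rho q 1 3) hm3 (hp1 1 3) hr3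
  refine ⟨min ε1 ε3, lt_min he1 he3, fun a ha => ?_⟩
  have j1 := k1 a.1 (fun u => ((norm_le_pi_norm (gam q a) (Sum.inl u)).trans_lt ha).trans_le
    (min_le_left _ _))
  have j3 := k3 a.2 (fun u => ((norm_le_pi_norm (gam q a) (Sum.inr u)).trans_lt ha).trans_le
    (min_le_right _ _))
  funext i
  rcases i with u | v
  · change rho q 1 1 u * pt q _ a.1 u = 0
    rw [j1 u, mul_zero]
  · change rho q 1 3 v * pt q _ a.2 v = 0
    rw [j3 v, mul_zero]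

theorem gam_cocp (q : ℕ) (hq : q ≠ 0)
    (hm1 : ∀ u, 1 ≤ u → u < q → (u ∈ Phi q 1 1 ↔ q - u ∉ Phi q 1 1))
    (hm3 : ∀ u, 1 ≤ u → u < q → (u ∈ Phi q 1 3 ↔ q - u ∉ Phi q 1 3))
    (hr1 : ∀ u ∈ Phi q 1 1, rho q 1 1 u ≠ 0) (hr3 : ∀ u ∈ Phi q 1 3, rho q 1 3 u ≠ 0) :
    ∃ R : ℝ, ∀ z, ∃ a, ‖z - gam q a‖ ≤ R := by
  classical
  have hp1 : ∀ a b : ℕ, ∀ u ∈ Phi q a b, 1 ≤ u ∧ u < q := by
    intro a b u hu
    unfold Phi at hu
    rw [Finset.mem_filter, Finset.mem_Icc] at hu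
    omega
  refine ⟨(∑ u : Phi q 1 1, ‖rho q 1 1 u‖ + ∑ u : Phi q 1 3, ‖rho q 1 3 u‖) * q, fun z => ?_⟩
  obtain ⟨P, hP⟩ := cocp q hq (Phi q 1 1) (hp1 1 1)
    (fun u hu => (hm1 u (hp1 1 1 u hu).1 (hp1 1 1 u hu).2).1 hu)
    (fun u => (rho q 1 1 u)⁻¹ * z (Sum.inl u))
  obtain ⟨Q, hQ⟩ := cocp q hq (Phi q 1 3) (hp1 1 3)
    (fun u hu => (hm3 u (hp1 1 3 u hu).1 (hp1 1 3 u hu).2).1 hu)
    (fun u => (rho q 1 3 u)⁻¹ * z (Sum.inr u))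
  refine ⟨(P, Q), ?_⟩
  have hS1 : (0 : ℝ) ≤ ∑ u : Phi q 1 1, ‖rho q 1 1 u‖ :=
    Finset.sum_nonneg fun u _ => norm_nonneg _
  have hS3 : (0 : ℝ) ≤ ∑ u : Phi q 1 3, ‖rho q 1 3 u‖ :=
    Finset.sum_nonneg fun u _ => norm_nonneg _
  rw [pi_norm_le_iff_of_nonneg (by positivity)]
  intro i
  rcases i with u | v
  · have h1 : (z - gam q (P, Q)) (Sum.inl u) =
        rho q 1 1 u * ((rho q 1 1 u)⁻¹ * z (Sum.inl u) - pt q _ P u) := by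
      rw [mul_sub, mul_inv_cancel_left₀ (hr1 u u.2)]
      rfl
    rw [h1, norm_mul]
    have h2 : ‖rho q 1 1 u‖ ≤ ∑ u : Phi q 1 1, ‖rho q 1 1 u‖ :=
      Finset.single_le_sum (f := fun u : Phi q 1 1 => ‖rho q 1 1 u‖)
        (fun _ _ => norm_nonneg _) (Finset.mem_univ u)
    exact mul_le_mul (by linarith) (hP u) (norm_nonneg _) (by positivity)
  · have h1 : (z - gam q (P, Q)) (Sum.inr v) =
        rho q 1 3 v * ((rho q 1 3 v)⁻¹ * z (Sum.inr v) - pt q _ Q v) := by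
      rw [mul_sub, mul_inv_cancel_left₀ (hr3 v v.2)]
      rfl
    rw [h1, norm_mul]
    have h2 : ‖rho q 1 3 v‖ ≤ ∑ u : Phi q 1 3, ‖rho q 1 3 u‖ :=
      Finset.single_le_sum (f := fun u : Phi q 1 3 => ‖rho q 1 3 u‖)
        (fun _ _ => norm_nonneg _) (Finset.mem_univ v)
    exact mul_le_mul (by linarith) (hQ v) (norm_nonneg _) (by positivity)

theorem gam_bpf (q : ℕ) {κ1 : Phi q 1 1 → ℂ} {c1 : Polynomial ℤ → ℂ}
    {f0 : (Phi q 1 1 → ℂ) → ℂ} {f : Fin ((q - 1) / 2) → (Phi q 1 1 → ℂ) → ℂ}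
    (h1 : IsSys q 1 1 κ1 c1 f0 f)
    {κ2 : Phi q 1 3 → ℂ} {c2 : Polynomial ℤ → ℂ}
    {g0 : (Phi q 1 3 → ℂ) → ℂ} {g : Fin ((q - 1) / 2) → (Phi q 1 3 → ℂ) → ℂ}
    (h2 : IsSys q 1 3 κ2 c2 g0 g) (p : Phi q 1 1 ⊕ Phi q 1 3 → ℂ) :
    ∃ F, Theta (gam q) (lin q κ1 κ2) (cst q c1 c2) 1 F ∧ F p ≠ 0 := by
  obtain ⟨F1, d1, q1, n1⟩ := h1.bpf (fun u => p (Sum.inl u))
  obtain ⟨F2, d2, q2, n2⟩ := h2.bpf (fun u => p (Sum.inr u))
  have hl : Differentiable ℂ (fun x : Phi q 1 1 ⊕ Phi q 1 3 → ℂ => fun u => x (Sum.inl u)) :=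
    differentiable_pi.2 fun u => differentiable_apply _
  have hr : Differentiable ℂ (fun x : Phi q 1 1 ⊕ Phi q 1 3 → ℂ => fun u => x (Sum.inr u)) :=
    differentiable_pi.2 fun u => differentiable_apply _
  refine ⟨fun x => (F1 (fun u => x (Sum.inl u)) * F2 (fun u => x (Sum.inr u))) ^ ((q - 1) / 2),
    ⟨?_, ?_⟩, pow_ne_zero _ (mul_ne_zero n1 n2)⟩
  · exact (((d1.comp hl).mul (d2.comp hr)).pow _)
  · intro a z
    have e1 : (fun u => (z + gam q a) (Sum.inl u)) = (fun u => z (Sum.inl u)) + lam q 1 1 a.1 :=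
      rfl
    have e2 : (fun u => (z + gam q a) (Sum.inr u)) = (fun u => z (Sum.inr u)) + lam q 1 3 a.2 :=
      rfl
    simp only
    rw [e1, e2, q1, q2, lin_apply]
    unfold cst
    rw [mul_mul_mul_comm, ← Complex.exp_add, mul_pow, ← Complex.exp_nat_mul]
    congr 2
    push_cast
    ring

/-- A5 -/
theorem Z_app_of (hZ : ZMain) (q : ℕ) (hq : q.Prime) (h41 : 41 ≤ q) (hS : SubT q)
    (hm1 : ∀ u, 1 ≤ u → u < q → (u ∈ Phi q 1 1 ↔ q - u ∉ Phi q 1 1))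
    (hm3 : ∀ u, 1 ≤ u → u < q → (u ∈ Phi q 1 3 ↔ q - u ∉ Phi q 1 3))
    (hcd1 : (Phi q 1 1).card = (q - 1) / 2) (hcd3 : (Phi q 1 3).card = (q - 1) / 2)
    (hr1 : ∀ u ∈ Phi q 1 1, rho q 1 1 u ≠ 0) (hr3 : ∀ u ∈ Phi q 1 3, rho q 1 3 u ≠ 0)
    (κ1 : Phi q 1 1 → ℂ) (c1 : Polynomial ℤ → ℂ)
    (f0 : (Phi q 1 1 → ℂ) → ℂ) (f : Fin ((q - 1) / 2) → (Phi q 1 1 → ℂ) → ℂ)
    (h1 : IsSys q 1 1 κ1 c1 f0 f)
    (κ2 : Phi q 1 3 → ℂ) (c2 : Polynomial ℤ → ℂ)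
    (g0 : (Phi q 1 3 → ℂ) → ℂ) (g : Fin ((q - 1) / 2) → (Phi q 1 3 → ℂ) → ℂ)
    (h2 : IsSys q 1 3 κ2 c2 g0 g) :
    ∃ C : ℝ, 0 < C ∧ ∀ (X : Phi q 1 1 → ℂ) (Y : Phi q 1 3 → ℂ), (∀ u, X u ≠ 0) → (∀ v, Y v ≠ 0) →
      ∀ L : ℕ, 1 ≤ L → ∀ c : Ex q L × Ex q L → ℂ, c ≠ 0 → ∀ T : ℕ,
        (∀ z, ∀ j ≤ (q - 1) * T, iteratedDeriv j (fun s : ℂ => FF q L f0 f g0 g c X Y (s • z)) 0 = 0) →
        (T : ℝ) ^ (Psi q).card ≤ C * (L : ℝ) ^ (q - 1) := by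
  have hq0 : q ≠ 0 := by omega
  obtain ⟨C, hC0, hC⟩ := hZ (gam q) (lin q κ1 κ2) (cst q c1 c2)
    (gam_disc q hq0 hm1 hm3 hr1 hr3) (gam_cocp q hq0 hm1 hm3 hr1 hr3) (gam_bpf q h1 h2)
  have hcard : Fintype.card (Phi q 1 1 ⊕ Phi q 1 3) = q - 1 := by
    rw [Fintype.card_sum, Fintype.card_coe, Fintype.card_coe, hcd1, hcd3]
    rcases hq.eq_two_or_odd with h | h
    · omega
    · omega
  refine ⟨C, hC0, fun X Y hX hY L hL c hc T hT => ?_⟩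
  have hW : ∀ i, Sum.elim X Y i ≠ 0 := by
    rintro (u | v)
    · exact hX u
    · exact hY v
  have h3 := hC (LinearMap.range (grf q (Sum.elim X Y))) ?_ L hL (GG q L f0 f g0 g c)
    (GG_theta q L h1 h2 c) (GG_ne q L h1 h2 c hc) T ?_
  · rw [grf_rank q _ hW, hcard] at h3
    exact h3
  · intro H hH hr
    refine grf_sup q X Y hX hY H (hS (fun u => rho q 1 1 u) (fun u => rho q 1 3 u)
      (fun u => hr1 u u.2) (fun u => hr3 u u.2) H hH ?_)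
    intro x hx
    refine Submodule.span_mono ?_ (hr x hx)
    rintro y ⟨hy, a, rfl⟩
    exact ⟨hy, a.1, a.2, rfl⟩
  · rintro v ⟨z, rfl⟩ j hj
    rw [hcard] at hj
    have h4 := hT z j hj
    have h5 : (fun s : ℂ => GG q L f0 f g0 g c (s • (grf q (Sum.elim X Y)) z)) =
        fun s : ℂ => FF q L f0 f g0 g c X Y (s • z) := by
      funext s
      rw [FF_eq, ← map_smul]
      rfl
    rw [h5]
    exact h4

end Pool.Agent.Helper59.LT
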