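import Pool.Agent.Helper34.LT.Df
import Pool.Agent.Helper13.LT.PsAll

/-!
PROJECT LT, part A2 (abstract form): the Taylor coefficients of `z ↦ G (W z)` are polynomials in the
slopes `W`.
-/

set_option autoImplicit false

namespace Pool.Agent.Helper59.LT

open Finset
open Pool.Agent.Helper34.LT Pool.Agent.Helper13.LT

section

variable {I K : Type} [Fintype I] [Fintype K]

open Classical in
/-- exponents of `z` -/
noncomputable def psh (π : I → K) (n : I → ℕ) (u : K) : ℕ :=
  ∑ i ∈ univ.filter (fun i => π i = u), n i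

theorem psh_sum (π : I → K) (n : I → ℕ) : ∑ u, psh π n u = ∑ i, n i := by
  classical
  unfold psh
  convert Finset.sum_fiberwise (univ : Finset I) π n using 3

theorem psh_prod (π : I → K) (n : I → ℕ) (W : I → ℂ) (z : K → ℂ) :
    ∏ i, (W i * z (π i)) ^ n i = (∏ i, W i ^ n i) * ∏ u, z u ^ psh π n u := by
  classical
  simp_rw [mul_pow]
  rw [Finset.prod_mul_distrib]
  congr 1
  rw [← Finset.prod_fiberwise (univ : Finset I) π]
  refine Finset.prod_congr rfl fun u _ => ?_
  unfold psh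
  rw [← Finset.prod_pow_eq_pow_sum]
  refine Finset.prod_congr (by congr) fun i hi => ?_
  rw [(Finset.mem_filter.1 hi).2]

theorem psh_le (π : I → K) (n : I → ℕ) (i : I) : n i ≤ psh π n (π i) := by
  classical
  unfold psh
  exact Finset.single_le_sum (f := n) (fun _ _ => Nat.zero_le _)
    (Finset.mem_filter.2 ⟨Finset.mem_univ i, rfl⟩)

theorem psh_dvd (π : I → K) (n : I → ℕ) :
    ∏ i, (n i).factorial ∣ ∏ u, (psh π n u).factorial := by
  classical
  rw [← Finset.prod_fiberwise (univ : Finset I) π]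
  refine Finset.prod_dvd_prod_of_dvd _ _ fun u _ => ?_
  unfold psh
  convert Nat.prod_factorial_dvd_factorial_sum (univ.filter (fun i => π i = u)) n using 2

open Classical in
/-- the fibre over `p` -/
noncomputable def fib (π : I → K) (p : K → ℕ) : Finset (I → ℕ) :=
  (Fintype.piFinset fun i => range (p (π i) + 1)).filter fun n => psh π n = p

theorem mem_fib (π : I → K) (p : K → ℕ) (n : I → ℕ) : n ∈ fib π p ↔ psh π n = p := by
  classical
  unfold fib
  rw [Finset.mem_filter]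
  refine ⟨fun h => h.2, fun h => ⟨?_, h⟩⟩
  rw [Fintype.mem_piFinset]
  intro i
  rw [Finset.mem_range, ← h]
  exact Nat.lt_succ_of_le (psh_le π n i)

/-- the polynomials -/
noncomputable def ppol (π : I → K) (A : (I → ℕ) → ℤ) (p : K → ℕ) : MvPolynomial I ℤ :=
  ∑ n ∈ fib π p, MvPolynomial.monomial (Finsupp.equivFunOnFinite.symm n)
    ((((∏ u, (p u).factorial) / ∏ i, (n i).factorial : ℕ) : ℤ) * A n)

theorem ppol_deg (π : I → K) (A : (I → ℕ) → ℤ) (p : K → ℕ) :
    (ppol π A p).totalDegree ≤ ∑ u, p u := by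
  unfold ppol
  refine MvPolynomial.totalDegree_finsetSum_le fun n hn => ?_
  refine (MvPolynomial.totalDegree_monomial_le _ _).trans ?_
  rw [mem_fib] at hn
  rw [← hn, psh_sum, Finsupp.sum_fintype _ _ (fun _ => rfl)]
  exact le_of_eq (Finset.sum_congr rfl fun i _ => rfl)

theorem ppol_coeff (π : I → K) (A : (I → ℕ) → ℤ) (p : K → ℕ) (k : I →₀ ℕ) :
    (ppol π A p).coeff k = 0 ∨ (psh π k = p ∧ (ppol π A p).coeff k =
      (((∏ u, (p u).factorial) / ∏ i, (k i).factorial : ℕ) : ℤ) * A k) := by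
  classical
  unfold ppol
  rw [MvPolynomial.coeff_sum]
  simp_rw [MvPolynomial.coeff_monomial]
  by_cases hk : psh π k = p
  · right
    refine ⟨hk, ?_⟩
    rw [Finset.sum_eq_single (k : I → ℕ)]
    · rw [if_pos (by exact Equiv.symm_apply_apply Finsupp.equivFunOnFinite k)]
    · intro n _ hn
      rw [if_neg]
      intro h
      apply hn
      rw [← h]
      rfl
    · intro h
      exact absurd ((mem_fib π p _).2 hk) h
  · left
    refine Finset.sum_eq_zero fun n hn => ?_
    rw [if_neg]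
    intro h
    apply hk
    rw [← h]
    exact (mem_fib π p _).1 hn

theorem ppol_aeval (π : I → K) (A : (I → ℕ) → ℤ) (p : K → ℕ) (W : I → ℂ) :
    MvPolynomial.aeval W (ppol π A p) = ∑ n ∈ fib π p,
      (((∏ u, (p u).factorial : ℕ) : ℂ) / ((∏ i, (n i).factorial : ℕ) : ℂ) * (A n : ℂ)) *
        ∏ i, W i ^ n i := by
  unfold ppol
  rw [map_sum]
  refine Finset.sum_congr rfl fun n hn => ?_
  rw [MvPolynomial.aeval_monomial, Finsupp.prod_fintype _ _ (fun _ => pow_zero _)]
  have h1 : ∏ i, (n i).factorial ∣ ∏ u, (p u).factorial := by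
    rw [← (mem_fib π p n).1 hn]
    exact psh_dvd π n
  have h2 : ((∏ i, (n i).factorial : ℕ) : ℂ) ≠ 0 := by
    rw [Nat.cast_ne_zero]
    exact Finset.prod_ne_zero_iff.2 fun i _ => Nat.factorial_ne_zero _
  congr 1
  · rw [eq_intCast, Int.cast_mul, Int.cast_natCast, Nat.cast_div h1 h2]

/-- `PS` along the fibres -/
theorem ps_fib (π : I → K) {c : (I → ℕ) → ℂ} {G : (I → ℂ) → ℂ} (h : PS c G) (W : I → ℂ) :
    PS (fun p : K → ℕ => ∑ n ∈ fib π p, c n * ∏ i, W i ^ n i)
      (fun z => G fun i => W i * z (π i)) := by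
  classical
  intro z
  have h1 := h (fun i => W i * z (π i))
  rw [← (Equiv.sigmaFiberEquiv (psh π)).hasSum_iff] at h1
  have h2 := h1.sigma (g := fun p => (∑ n ∈ fib π p, c n * ∏ i, W i ^ n i) * ∏ u, z u ^ p u) ?_
  · exact h2
  · intro p
    have h3 : Fintype {n : I → ℕ // psh π n = p} :=
      Fintype.ofEquiv (fib π p) (Equiv.subtypeEquivRight fun n => mem_fib π p n)
    have h4 := hasSum_fintype (L := SummationFilter.unconditional _)
      (fun n : {n : I → ℕ // psh π n = p} =>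
      c n.1 * ∏ i, (W i * z (π i)) ^ n.1 i)
    have h5 : (∑ n ∈ fib π p, c n * ∏ i, W i ^ n i) * ∏ u, z u ^ p u =
        ∑ n : {n : I → ℕ // psh π n = p}, c n.1 * ∏ i, (W i * z (π i)) ^ n.1 i := by
      rw [Finset.sum_mul, ← Finset.sum_coe_sort (fib π p)]
      refine Fintype.sum_equiv (Equiv.subtypeEquivRight fun n => mem_fib π p n) _ _ ?_
      rintro ⟨n, hn⟩
      change c n * (∏ i, W i ^ n i) * ∏ u, z u ^ p u = c n * ∏ i, (W i * z (π i)) ^ n i
      rw [psh_prod, (mem_fib π p n).1 hn]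
      ring
    change HasSum _ ((∑ n ∈ fib π p, c n * ∏ i, W i ^ n i) * ∏ u, z u ^ p u)
    rw [h5]
    exact h4

/-- the abstract form of A2 -/
theorem poly_abs (π : I → K) {D k : ℕ} (hD : 1 ≤ D) {G : (I → ℂ) → ℂ} (hG : RT D k G) :
    ∃ P : (K → ℕ) → MvPolynomial I ℤ,
      (∀ p, (P p).totalDegree ≤ ∑ u, p u) ∧
      (∀ (M : ℝ), (∀ z : I → ℂ, ‖z‖ ≤ 1 → ‖G z‖ ≤ M) → ∀ p n,
        |(((P p).coeff n : ℤ) : ℝ)| ≤ M * ((D : ℝ) ^ (∑ u, p u + k) * ∏ u, ((p u).factorial : ℝ))) ∧
      ∀ W : I → ℂ, PS (fun p : K → ℕ => MvPolynomial.aeval W (P p) /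
          ((D : ℂ) ^ (∑ u, p u + k) * ∏ u, ((p u).factorial : ℂ)))
        (fun z => G fun i => W i * z (π i)) := by
  obtain ⟨A, hA⟩ := hG
  have hD0 : (D : ℂ) ≠ 0 := Nat.cast_ne_zero.2 (by omega)
  have hDr : (0 : ℝ) < (D : ℝ) := by exact_mod_cast hD
  have hps : PS (fun m : I → ℕ =>
      (A m : ℂ) / ((D : ℂ) ^ (∑ u, m u + k) * ∏ u, ((m u).factorial : ℂ))) G := hA
  refine ⟨ppol π A, ppol_deg π A, ?_, ?_⟩
  · intro M hM p n
    have hM0 : 0 ≤ M := (norm_nonneg _).trans (hM 0 (by rw [norm_zero]; exact zero_le_one))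
    rcases ppol_coeff π A p n with h | ⟨h, h'⟩
    · rw [h, Int.cast_zero, abs_zero]
      positivity
    · rw [h']
      have h1 := PS.bound hps (R := 1) (B := M) zero_le_one hM n
      rw [one_pow, mul_one] at h1
      have h2 : ∑ i, n i = ∑ u, p u := by rw [← h, psh_sum]
      rw [h2] at h1
      have hp : (0 : ℝ) < ∏ i, ((n i).factorial : ℝ) :=
        Finset.prod_pos fun i _ => by exact_mod_cast Nat.factorial_pos _
      have h3 : |((A n : ℤ) : ℝ)| ≤ M * ((D : ℝ) ^ (∑ u, p u + k) * ∏ i, ((n i).factorial : ℝ)) := by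
        rw [norm_div, norm_mul, norm_pow, Complex.norm_natCast, norm_prod] at h1
        simp only [Complex.norm_natCast] at h1
        rw [div_le_iff₀ (by positivity)] at h1
        rwa [Complex.norm_intCast] at h1
      have hdv : ∏ i, (n i).factorial ∣ ∏ u, (p u).factorial := by
        rw [← h]
        exact psh_dvd π n
      have h4 : (((∏ i, (n i).factorial : ℕ) : ℝ)) ≠ 0 := by
        rw [Nat.cast_prod]
        exact hp.ne'
      rw [Int.cast_mul, Int.cast_natCast, Nat.cast_div hdv h4, abs_mul,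
        abs_of_nonneg (by positivity), Nat.cast_prod, Nat.cast_prod]
      calc (∏ u, ((p u).factorial : ℝ)) / (∏ i, ((n i).factorial : ℝ)) * |((A n : ℤ) : ℝ)|
          ≤ (∏ u, ((p u).factorial : ℝ)) / (∏ i, ((n i).factorial : ℝ)) *
            (M * ((D : ℝ) ^ (∑ u, p u + k) * ∏ i, ((n i).factorial : ℝ))) :=
            mul_le_mul_of_nonneg_left h3 (by positivity)
        _ = M * ((D : ℝ) ^ (∑ u, p u + k) * ∏ u, ((p u).factorial : ℝ)) := by
            field_simp
  · intro W
    have h1 := ps_fib π hps W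
    convert h1 using 2 with p
    rw [ppol_aeval, Finset.sum_div]
    refine Finset.sum_congr rfl fun n hn => ?_
    have h2 : ∑ i, n i = ∑ u, p u := by rw [← (mem_fib π p n).1 hn, psh_sum]
    rw [h2]
    have h3 : (∏ u, ((p u).factorial : ℂ)) ≠ 0 :=
      Finset.prod_ne_zero_iff.2 fun i _ => Nat.cast_ne_zero.2 (Nat.factorial_ne_zero _)
    have h4 : (∏ u, ((n u).factorial : ℂ)) ≠ 0 :=
      Finset.prod_ne_zero_iff.2 fun i _ => Nat.cast_ne_zero.2 (Nat.factorial_ne_zero _)
    rw [Nat.cast_prod, Nat.cast_prod]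
    field_simp

end

end Pool.Agent.Helper59.LT
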